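import Pool.Agent.H21.L.R_seed8.W263.BSD.Core

/-!
# Linear combinations with real weights of the logarithms of several Euler products

Families `a i` of functions such that `Φ i z = exp (G i z - z lapC (a i) z)` continues to `Re z > 0`.
If a linear combination `∑ w i * a i` with real weights is bounded on one side, then its Laplace
integral converges for `Re z > 0`, and the weighted multiplicities of the zeros of the `Φ i` cancel.
-/

set_option autoImplicit false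

namespace Pool.Agent.H21.RC

open MeasureTheory Filter Topology Set
open Pool.Agent.W263.BSD (LInt lap lapC lapC_ofReal lapC_differentiableAt dens dens_pos
  mem_integrableExpSet_dens mgf_dens landau lap_sub lap_const_mul)

variable {ι : Type} [Fintype ι]

/-- the data -/
structure Fam (a : ι → ℝ → ℝ) (Φ G : ι → ℂ → ℂ) (c0 : ℝ) : Prop where
  meas : ∀ i, Measurable (a i)
  c0_nonneg : 0 ≤ c0
  int : ∀ i, ∀ x > c0, LInt (a i) x
  hΦ : ∀ i (z : ℂ), 0 < z.re → DifferentiableAt ℂ (Φ i) z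
  hG : ∀ i (z : ℂ), 0 < z.re → DifferentiableAt ℂ (G i) z
  eq : ∀ i (z : ℂ), c0 < z.re → Φ i z = Complex.exp (G i z - z * lapC (a i) z)

/-- the linear combination -/
noncomputable def comb (w : ι → ℝ) (a : ι → ℝ → ℝ) (u : ℝ) : ℝ := ∑ i, w i * a i u

/-- the logarithm of the combined continuation -/
noncomputable def JJ (w : ι → ℝ) (a : ι → ℝ → ℝ) (G : ι → ℂ → ℂ) (z : ℂ) : ℂ :=
  ∑ i, (w i : ℂ) * G i z - z * lapC (comb w a) z

/-- the weighted multiplicity -/
noncomputable def mult (w : ι → ℝ) (Φ : ι → ℂ → ℂ) (z : ℂ) : ℝ :=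
  ∑ i, w i * (analyticOrderNatAt (Φ i) z : ℝ)

variable {a : ι → ℝ → ℝ} {Φ G : ι → ℂ → ℂ} {c0 : ℝ} {w : ι → ℝ}

theorem comb_meas (F : Fam a Φ G c0) : Measurable (comb w a) := by
  unfold comb
  exact Finset.measurable_sum _ fun i _ => (F.meas i).const_mul _

theorem LInt_sum {ι : Type} (s : Finset ι) {f : ι → ℝ → ℝ} {x : ℝ} (h : ∀ i ∈ s, LInt (f i) x) :
    LInt (fun u => ∑ i ∈ s, f i u) x := by
  unfold LInt at *
  have h1 := integrable_finsetSum s h
  refine h1.congr (Eventually.of_forall fun u => ?_)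
  simp only []
  rw [Finset.sum_mul]

theorem comb_LInt (F : Fam a Φ G c0) {x : ℝ} (hx : c0 < x) : LInt (comb w a) x :=
  LInt_sum _ fun i _ => (F.int i x hx).const_mul _

theorem lapC_comb (F : Fam a Φ G c0) {z : ℂ} (hz : c0 < z.re) :
    lapC (comb w a) z = ∑ i, (w i : ℂ) * lapC (a i) z := by
  unfold lapC comb
  have h1 : ∀ i ∈ (Finset.univ : Finset ι), Integrable (fun u : ℝ =>
      (w i : ℂ) * ((a i u : ℂ) * Complex.exp (-(z * u)))) (volume.restrict (Ioi 0)) := fun i _ =>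
    (LInt.complex (F.meas i) (F.int i _ hz)).const_mul _
  have h2 := integral_finsetSum _ h1
  simp only [integral_const_mul] at h2
  rw [← h2]
  congr 1
  funext u
  push_cast
  rw [Finset.sum_mul]
  exact Finset.sum_congr rfl fun i _ => by ring
where
  LInt.complex {f : ℝ → ℝ} (hf : Measurable f) {z : ℂ} (h : LInt f z.re) :
      IntegrableOn (fun u : ℝ => (f u : ℂ) * Complex.exp (-(z * u))) (Ioi 0) :=
    Pool.Agent.W263.BSD.LInt.complex hf h

theorem isOpen_half (s : ℝ) : IsOpen {z : ℂ | s < z.re} :=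
  isOpen_lt continuous_const Complex.continuous_re

theorem preconn_half (s : ℝ) : IsPreconnected {z : ℂ | s < z.re} :=
  (convex_halfSpace_re_gt s).isPreconnected

theorem Fam.Phi_an (F : Fam a Φ G c0) (i : ι) : AnalyticOnNhd ℂ (Φ i) {z : ℂ | 0 < z.re} :=
  DifferentiableOn.analyticOnNhd (fun z hz => (F.hΦ i z hz).differentiableWithinAt) (isOpen_half 0)

theorem Fam.G_an (F : Fam a Φ G c0) (i : ι) : AnalyticOnNhd ℂ (G i) {z : ℂ | 0 < z.re} :=
  DifferentiableOn.analyticOnNhd (fun z hz => (F.hG i z hz).differentiableWithinAt) (isOpen_half 0)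

theorem Fam.ne_zero (F : Fam a Φ G c0) (i : ι) {z : ℂ} (hz : c0 < z.re) : Φ i z ≠ 0 := by
  rw [F.eq i z hz]
  exact Complex.exp_ne_zero _

theorem Fam.order_ne_top (F : Fam a Φ G c0) (i : ι) {z : ℂ} (hz : 0 < z.re) :
    analyticOrderAt (Φ i) z ≠ ⊤ := by
  intro htop
  rw [analyticOrderAt_eq_top] at htop
  have h1 := (F.Phi_an i).eqOn_of_preconnected_of_eventuallyEq (analyticOnNhd_const (v := (0 : ℂ)))
    (preconn_half 0) (show z ∈ {z : ℂ | 0 < z.re} from hz) htop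
  have hc := F.c0_nonneg
  have h2 : (0 : ℝ) < (((c0 + 1 : ℝ) : ℂ)).re := by rw [Complex.ofReal_re]; linarith
  have h3 : c0 < (((c0 + 1 : ℝ) : ℂ)).re := by rw [Complex.ofReal_re]; linarith
  exact F.ne_zero i h3 (h1 h2)

/-- local factorisation -/
theorem Fam.factor (F : Fam a Φ G c0) (i : ι) {z : ℂ} (hz : 0 < z.re) :
    ∃ ψ : ℂ → ℂ, AnalyticAt ℂ ψ z ∧ ψ z ≠ 0 ∧
      ∀ᶠ y in 𝓝 z, Φ i y = (y - z) ^ analyticOrderNatAt (Φ i) z * ψ y := by
  have h1 := ((F.Phi_an i) z hz).analyticOrderAt_ne_top.1 (F.order_ne_top i hz)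
  obtain ⟨ψ, h2, h3, h4⟩ := h1
  refine ⟨ψ, h2, h3, ?_⟩
  filter_upwards [h4] with y hy
  rw [hy, smul_eq_mul]

theorem Fam.JJ_diff (F : Fam a Φ G c0) {s : ℝ} (hs : 0 ≤ s) (h : ∀ x > s, LInt (comb w a) x)
    {z : ℂ} (hz : s < z.re) : DifferentiableAt ℂ (JJ w a G) z := by
  unfold JJ
  refine DifferentiableAt.sub ?_ (differentiableAt_id.mul (lapC_differentiableAt (comb_meas F) h hz))
  exact DifferentiableAt.fun_sum fun i _ => (F.hG i z (by linarith)).const_mul _

theorem Fam.JJ_an (F : Fam a Φ G c0) {s : ℝ} (hs : 0 ≤ s) (h : ∀ x > s, LInt (comb w a) x) :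
    AnalyticOnNhd ℂ (JJ w a G) {z : ℂ | s < z.re} :=
  DifferentiableOn.analyticOnNhd (fun _ hz => (F.JJ_diff hs h hz).differentiableWithinAt)
    (isOpen_half s)

/-- the individual logarithms -/
theorem Fam.deriv_far (F : Fam a Φ G c0) {z : ℂ} (hz : c0 < z.re) :
    deriv (JJ w a G) z = ∑ i, (w i : ℂ) * (deriv (Φ i) z / Φ i z) := by
  have hc := F.c0_nonneg
  have hd : ∀ i, DifferentiableAt ℂ (fun z => G i z - z * lapC (a i) z) z := fun i =>
    (F.hG i z (by linarith)).sub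
      (differentiableAt_id.mul (lapC_differentiableAt (F.meas i) (F.int i) hz))
  have h1 : JJ w a G =ᶠ[𝓝 z] fun z => ∑ i, (w i : ℂ) * (G i z - z * lapC (a i) z) := by
    filter_upwards [(isOpen_half c0).mem_nhds hz] with y hy
    unfold JJ
    rw [lapC_comb F hy, Finset.mul_sum, ← Finset.sum_sub_distrib]
    exact Finset.sum_congr rfl fun i _ => by ring
  rw [h1.deriv_eq, deriv_fun_sum fun i _ => (hd i).const_mul _]
  refine Finset.sum_congr rfl fun i _ => ?_
  rw [deriv_const_mul _ (hd i)]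
  congr 1
  have h2 : Φ i =ᶠ[𝓝 z] fun z => Complex.exp (G i z - z * lapC (a i) z) := by
    filter_upwards [(isOpen_half c0).mem_nhds hz] with y hy
    exact F.eq i y hy
  rw [h2.deriv_eq, deriv_cexp (hd i), F.eq i z hz]
  field_simp

open scoped Classical in
theorem Fam.deriv_mul (F : Fam a Φ G c0) {s : ℝ} (hs : 0 ≤ s) (h : ∀ x > s, LInt (comb w a) x) :
    ∀ z : ℂ, s < z.re → deriv (JJ w a G) z * ∏ j, Φ j z =
      ∑ i, (w i : ℂ) * (deriv (Φ i) z * ∏ j ∈ Finset.univ.erase i, Φ j z) := by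
  have hsub : ∀ z : ℂ, z ∈ {z : ℂ | s < z.re} → z ∈ {z : ℂ | 0 < z.re} := fun z hz => by
    have : s < z.re := hz
    show 0 < z.re
    linarith
  have h1 : AnalyticOnNhd ℂ (fun z => deriv (JJ w a G) z * ∏ j, Φ j z) {z : ℂ | s < z.re} := by
    refine (F.JJ_an hs h).deriv.mul ?_
    intro z hz
    exact Finset.analyticAt_fun_prod _ fun j _ => F.Phi_an j z (hsub z hz)
  have h2 : AnalyticOnNhd ℂ (fun z => ∑ i, (w i : ℂ) *
      (deriv (Φ i) z * ∏ j ∈ Finset.univ.erase i, Φ j z)) {z : ℂ | s < z.re} := by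
    intro z hz
    refine Finset.analyticAt_fun_sum _ fun i _ => ?_
    refine analyticAt_const.mul (((F.Phi_an i z (hsub z hz)).deriv).mul ?_)
    exact Finset.analyticAt_fun_prod _ fun j _ => F.Phi_an j z (hsub z hz)
  have hz0 : s < (((max s c0 + 1 : ℝ) : ℂ)).re := by
    rw [Complex.ofReal_re]
    linarith [le_max_left s c0]
  have hz1 : c0 < (((max s c0 + 1 : ℝ) : ℂ)).re := by
    rw [Complex.ofReal_re]
    linarith [le_max_right s c0]
  have h3 := h1.eqOn_of_preconnected_of_eventuallyEq h2 (preconn_half s) hz0 (by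
    filter_upwards [(isOpen_half c0).mem_nhds hz1] with z hz
    have hz' : c0 < z.re := hz
    rw [F.deriv_far hz', Finset.sum_mul]
    refine Finset.sum_congr rfl fun i _ => ?_
    rw [← Finset.mul_prod_erase _ _ (Finset.mem_univ i)]
    have := F.ne_zero i hz'
    field_simp)
  intro z hz
  exact h3 hz

theorem Fam.deriv_eq (F : Fam a Φ G c0) {s : ℝ} (hs : 0 ≤ s) (h : ∀ x > s, LInt (comb w a) x)
    {z : ℂ} (hz : s < z.re) (hne : ∀ i, Φ i z ≠ 0) :
    deriv (JJ w a G) z = ∑ i, (w i : ℂ) * (deriv (Φ i) z / Φ i z) := by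
  classical
  have h1 := F.deriv_mul hs h z hz
  have h2 : ∏ j, Φ j z ≠ 0 := Finset.prod_ne_zero_iff.2 fun j _ => hne j
  rw [← mul_left_inj' h2, h1, Finset.sum_mul]
  refine Finset.sum_congr rfl fun i _ => ?_
  rw [← Finset.mul_prod_erase _ _ (Finset.mem_univ i)]
  have := hne i
  field_simp

/-- the logarithmic derivative near a point -/
theorem Fam.deriv_near (F : Fam a Φ G c0) {s : ℝ} (hs : 0 ≤ s) (h : ∀ x > s, LInt (comb w a) x)
    {ρ : ℂ} {ψ : ι → ℂ → ℂ} (hψ : ∀ i, AnalyticAt ℂ (ψ i) ρ) (hψ0 : ∀ i, ψ i ρ ≠ 0)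
    (hf : ∀ i, ∀ᶠ y in 𝓝 ρ, Φ i y = (y - ρ) ^ analyticOrderNatAt (Φ i) ρ * ψ i y) :
    ∀ᶠ z in 𝓝[≠] ρ, (∀ i, Φ i z ≠ 0 ∧ ψ i z ≠ 0) ∧ (s < z.re →
      deriv (JJ w a G) z = (mult w Φ ρ : ℂ) / (z - ρ) +
        ∑ i, (w i : ℂ) * (deriv (ψ i) z / ψ i z)) := by
  have h1 : ∀ᶠ z in 𝓝 ρ, ∀ i, ψ i z ≠ 0 :=
    eventually_all.2 fun i => (hψ i).continuousAt.eventually_ne (hψ0 i)
  have h2 : ∀ᶠ z in 𝓝 ρ, ∀ i, AnalyticAt ℂ (ψ i) z :=
    eventually_all.2 fun i => (hψ i).eventually_analyticAt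
  have h3 : ∀ᶠ z in 𝓝 ρ, ∀ i, ∀ᶠ y in 𝓝 z,
      Φ i y = (y - ρ) ^ analyticOrderNatAt (Φ i) ρ * ψ i y :=
    eventually_all.2 fun i => (hf i).eventually_nhds
  filter_upwards [nhdsWithin_le_nhds h1, nhdsWithin_le_nhds h2, nhdsWithin_le_nhds h3,
    self_mem_nhdsWithin] with z e1 e2 e3 e4
  have hzρ : z - ρ ≠ 0 := sub_ne_zero.2 e4
  have e5 : ∀ i, Φ i z = (z - ρ) ^ analyticOrderNatAt (Φ i) ρ * ψ i z := fun i => (e3 i).self_of_nhds
  have e6 : ∀ i, Φ i z ≠ 0 := fun i => by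
    rw [e5 i]
    exact mul_ne_zero (pow_ne_zero _ hzρ) (e1 i)
  refine ⟨fun i => ⟨e6 i, e1 i⟩, fun hz => ?_⟩
  rw [F.deriv_eq hs h hz e6]
  unfold mult
  push_cast
  rw [Finset.sum_div, ← Finset.sum_add_distrib]
  refine Finset.sum_congr rfl fun i _ => ?_
  have hd1 : DifferentiableAt ℂ (fun y : ℂ => (y - ρ) ^ analyticOrderNatAt (Φ i) ρ) z := by fun_prop
  have e7 : deriv (Φ i) z = (analyticOrderNatAt (Φ i) ρ : ℂ) *
      (z - ρ) ^ (analyticOrderNatAt (Φ i) ρ - 1) * ψ i z +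
      (z - ρ) ^ analyticOrderNatAt (Φ i) ρ * deriv (ψ i) z := by
    rw [(show Φ i =ᶠ[𝓝 z] fun y => (y - ρ) ^ analyticOrderNatAt (Φ i) ρ * ψ i y from e3 i).deriv_eq,
      deriv_fun_mul hd1 (e2 i).differentiableAt]
    congr 2
    have h4 : HasDerivAt (fun y : ℂ => y - ρ) 1 z := (hasDerivAt_id z).sub_const ρ
    have h5 := h4.pow (analyticOrderNatAt (Φ i) ρ)
    rw [mul_one] at h5
    exact h5.deriv
  rw [e7, e5 i]
  set n := analyticOrderNatAt (Φ i) ρ
  have h1i := e1 i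
  rcases Nat.eq_zero_or_pos n with hn | hn
  · rw [hn]
    simp
  · obtain ⟨k, hk⟩ : ∃ k, n = k + 1 := ⟨n - 1, by omega⟩
    rw [hk, Nat.add_sub_cancel, pow_succ]
    have := pow_ne_zero k hzρ
    field_simp

/-- choice of the local factorisations -/
theorem Fam.exists_factors (F : Fam a Φ G c0) {z : ℂ} (hz : 0 < z.re) :
    ∃ ψ : ι → ℂ → ℂ, (∀ i, AnalyticAt ℂ (ψ i) z) ∧ (∀ i, ψ i z ≠ 0) ∧
      ∀ i, ∀ᶠ y in 𝓝 z, Φ i y = (y - z) ^ analyticOrderNatAt (Φ i) z * ψ i y := by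
  choose ψ h1 h2 h3 using fun i => F.factor i hz
  exact ⟨ψ, h1, h2, h3⟩

theorem quot_an {ψ : ι → ℂ → ℂ} {z : ℂ} (hψ : ∀ i, AnalyticAt ℂ (ψ i) z) (hψ0 : ∀ i, ψ i z ≠ 0) :
    AnalyticAt ℂ (fun y => ∑ i, (w i : ℂ) * (deriv (ψ i) y / ψ i y)) z :=
  Finset.analyticAt_fun_sum _ fun i _ =>
    analyticAt_const.mul ((hψ i).deriv.div (hψ i) (hψ0 i))

/-- **The weighted multiplicities cancel in the half-plane of convergence.** -/
theorem Fam.mult_zero (F : Fam a Φ G c0) {s : ℝ} (hs : 0 ≤ s) (h : ∀ x > s, LInt (comb w a) x)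
    {ρ : ℂ} (hρ : s < ρ.re) : mult w Φ ρ = 0 := by
  obtain ⟨ψ, h1, h2, h3⟩ := F.exists_factors (show 0 < ρ.re by linarith)
  have h4 := F.deriv_near hs h h1 h2 h3
  have h5 : ContinuousAt (deriv (JJ w a G)) ρ := ((F.JJ_an hs h) ρ hρ).deriv.continuousAt
  have h6 : ContinuousAt (fun y => ∑ i, (w i : ℂ) * (deriv (ψ i) y / ψ i y)) ρ :=
    (quot_an h1 h2).continuousAt
  have h7 : Tendsto (fun z : ℂ => (z - ρ) * (deriv (JJ w a G) z -
      ∑ i, (w i : ℂ) * (deriv (ψ i) z / ψ i z))) (𝓝[≠] ρ) (𝓝 ((ρ - ρ) * (deriv (JJ w a G) ρ -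
      ∑ i, (w i : ℂ) * (deriv (ψ i) ρ / ψ i ρ)))) := by
    have : ContinuousAt (fun z : ℂ => (z - ρ) * (deriv (JJ w a G) z -
      ∑ i, (w i : ℂ) * (deriv (ψ i) z / ψ i z))) ρ :=
      (continuousAt_id.sub continuousAt_const).mul (h5.sub h6)
    exact this.tendsto.mono_left nhdsWithin_le_nhds
  rw [sub_self, zero_mul] at h7
  have h8 : Tendsto (fun _ : ℂ => (mult w Φ ρ : ℂ)) (𝓝[≠] ρ) (𝓝 0) := by
    refine h7.congr' ?_
    filter_upwards [h4, self_mem_nhdsWithin, nhdsWithin_le_nhds ((isOpen_half s).mem_nhds hρ)]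
      with z e1 e2 e3
    have hz : z - ρ ≠ 0 := sub_ne_zero.2 e2
    rw [e1.2 e3]
    field_simp
    ring
  have h9 := tendsto_nhds_unique tendsto_const_nhds h8
  exact_mod_cast h9

/-- sum of logarithms near a point -/
theorem log_near {ψ : ι → ℂ → ℂ} {z : ℂ} (hψ : ∀ i, AnalyticAt ℂ (ψ i) z) (hψ0 : ∀ i, ψ i z ≠ 0) :
    AnalyticAt ℂ (fun y => ∑ i, (w i : ℂ) * Complex.log (ψ i y / ψ i z)) z ∧
    (∀ᶠ y in 𝓝 z, HasDerivAt (fun y => ∑ i, (w i : ℂ) * Complex.log (ψ i y / ψ i z))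
      (∑ i, (w i : ℂ) * (deriv (ψ i) y / ψ i y)) y) ∧
    ∀ᶠ y in 𝓝 z, (∑ i, (w i : ℂ) * Complex.log (ψ i y / ψ i z)).re =
      ∑ i, w i * Real.log ‖ψ i y‖ - ∑ i, w i * Real.log ‖ψ i z‖ := by
  have h0 : ∀ i, ψ i z / ψ i z ∈ Complex.slitPlane := fun i => by
    rw [div_self (hψ0 i)]
    exact Complex.one_mem_slitPlane
  have h1 : ∀ᶠ y in 𝓝 z, ∀ i, ψ i y / ψ i z ∈ Complex.slitPlane :=
    eventually_all.2 fun i => ((hψ i).continuousAt.div_const _).eventually_mem
      (Complex.isOpen_slitPlane.mem_nhds (h0 i))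
  have h2 : ∀ᶠ z' in 𝓝 z, ∀ i, AnalyticAt ℂ (ψ i) z' :=
    eventually_all.2 fun i => (hψ i).eventually_analyticAt
  have h3 : ∀ᶠ y in 𝓝 z, ∀ i, ψ i y ≠ 0 :=
    eventually_all.2 fun i => (hψ i).continuousAt.eventually_ne (hψ0 i)
  refine ⟨Finset.analyticAt_fun_sum _ fun i _ => analyticAt_const.mul (((hψ i).div
    analyticAt_const (hψ0 i)).clog (h0 i)), ?_, ?_⟩
  · filter_upwards [h1, h2, h3] with y e1 e2 e3
    refine HasDerivAt.fun_sum fun i _ => HasDerivAt.const_mul _ ?_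
    have h4 := ((e2 i).differentiableAt.hasDerivAt.div_const (ψ i z)).clog (e1 i)
    refine h4.congr_deriv ?_
    have := hψ0 i
    have := e3 i
    field_simp
  · filter_upwards [h3] with y e3
    rw [Complex.re_sum, ← Finset.sum_sub_distrib]
    refine Finset.sum_congr rfl fun i _ => ?_
    rw [Complex.re_ofReal_mul, Complex.log_re, norm_div,
      Real.log_div (norm_ne_zero_iff.2 (e3 i)) (norm_ne_zero_iff.2 (hψ0 i))]
    ring

/-- near every point the difference of the logarithms is constant -/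
theorem Fam.const_near (F : Fam a Φ G c0) {s : ℝ} (hs : 0 ≤ s) (h : ∀ x > s, LInt (comb w a) x)
    {ρ : ℂ} (hρ : s < ρ.re) : ∃ v : ℝ, ∀ᶠ z in 𝓝[≠] ρ,
      (JJ w a G z).re - ∑ i, w i * Real.log ‖Φ i z‖ = v := by
  have hρ0 : 0 < ρ.re := by linarith
  obtain ⟨ψ, h1, h2, h3⟩ := F.exists_factors hρ0
  have h4 := F.deriv_near hs h h1 h2 h3
  have hm := F.mult_zero hs h hρ
  obtain ⟨g1, g2, g3⟩ := log_near (w := w) h1 h2
  have hJ := (F.JJ_an hs h) ρ hρ
  set L : ℂ → ℂ := fun z => JJ w a G z - ∑ i, (w i : ℂ) * Complex.log (ψ i z / ψ i ρ) with hL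
  -- the derivative vanishes
  have h5 : ∀ᶠ z in 𝓝 ρ, HasDerivAt L (deriv (JJ w a G) z -
      ∑ i, (w i : ℂ) * (deriv (ψ i) z / ψ i z)) z := by
    filter_upwards [g2, (isOpen_half s).mem_nhds hρ] with z e1 e2
    exact (F.JJ_diff hs h e2).hasDerivAt.sub e1
  have h6 : ∀ᶠ z in 𝓝[≠] ρ, deriv (JJ w a G) z - ∑ i, (w i : ℂ) * (deriv (ψ i) z / ψ i z) = 0 := by
    filter_upwards [h4, nhdsWithin_le_nhds ((isOpen_half s).mem_nhds hρ)] with z e1 e2
    rw [e1.2 e2, hm]
    simp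
  have h7 : ∀ᶠ z in 𝓝 ρ, deriv (JJ w a G) z - ∑ i, (w i : ℂ) * (deriv (ψ i) z / ψ i z) = 0 := by
    rw [eventually_nhdsWithin_iff] at h6
    have hc : ContinuousAt (fun z => deriv (JJ w a G) z -
        ∑ i, (w i : ℂ) * (deriv (ψ i) z / ψ i z)) ρ :=
      hJ.deriv.continuousAt.sub (quot_an h1 h2).continuousAt
    have hρv : deriv (JJ w a G) ρ - ∑ i, (w i : ℂ) * (deriv (ψ i) ρ / ψ i ρ) = 0 := by
      refine tendsto_nhds_unique (hc.tendsto.mono_left (nhdsWithin_le_nhds (s := {ρ}ᶜ))) ?_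
      refine tendsto_const_nhds.congr' ?_
      filter_upwards [eventually_nhdsWithin_iff.2 h6] with z hz
      exact hz.symm
    filter_upwards [h6] with z hz
    by_cases hzρ : z = ρ
    · rw [hzρ]; exact hρv
    · exact hz hzρ
  obtain ⟨r, hr, hball⟩ := Metric.eventually_nhds_iff_ball.1 (h5.and h7)
  have hconst : ∀ z ∈ Metric.ball ρ r, L z = L ρ := by
    intro z hz
    refine Metric.isOpen_ball.is_const_of_deriv_eq_zero (convex_ball ρ r).isPreconnected
      (f := L) (fun y hy => (hball y hy).1.differentiableAt.differentiableWithinAt) (fun y hy => ?_)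
      hz (Metric.mem_ball_self hr)
    rw [(hball y hy).1.deriv, (hball y hy).2]
    rfl
  refine ⟨(L ρ).re - ∑ i, w i * Real.log ‖ψ i ρ‖, ?_⟩
  filter_upwards [nhdsWithin_le_nhds (Metric.ball_mem_nhds ρ hr), nhdsWithin_le_nhds g3,
    self_mem_nhdsWithin, h4, nhdsWithin_le_nhds (eventually_all.2 h3)] with z e1 e2 e3 e4 e5
  have h8 := congrArg Complex.re (hconst z e1)
  have h9 : ∑ i, w i * Real.log ‖Φ i z‖ = ∑ i, w i * Real.log ‖ψ i z‖ := by
    have h10 : ∀ i, w i * Real.log ‖Φ i z‖ = w i * (analyticOrderNatAt (Φ i) ρ : ℝ) *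
        Real.log ‖z - ρ‖ + w i * Real.log ‖ψ i z‖ := fun i => by
      rw [e5 i, norm_mul, norm_pow, Real.log_mul (pow_ne_zero _ (norm_ne_zero_iff.2
        (sub_ne_zero.2 e3))) (norm_ne_zero_iff.2 (e4.1 i).2), Real.log_pow]
      ring
    simp only [h10]
    rw [Finset.sum_add_distrib, ← Finset.sum_mul]
    unfold mult at hm
    rw [hm, zero_mul, zero_add]
  rw [h9, ← h8, hL]
  simp only [Complex.sub_re]
  rw [e2]
  ring

/-- **The real part of the logarithm.** -/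
theorem Fam.re_near (F : Fam a Φ G c0) {s : ℝ} (hs : 0 ≤ s) (h : ∀ x > s, LInt (comb w a) x) :
    ∀ ρ : ℂ, s < ρ.re → ∀ᶠ z in 𝓝[≠] ρ, (JJ w a G z).re - ∑ i, w i * Real.log ‖Φ i z‖ = 0 := by
  set H : ℂ → ℝ := fun z => (JJ w a G z).re - ∑ i, w i * Real.log ‖Φ i z‖ with hH
  set U : Set ℂ := {z : ℂ | s < z.re ∧ ∀ᶠ y in 𝓝[≠] z, H y = 0} with hU
  have hfar : ∀ z : ℂ, c0 < z.re → H z = 0 := by
    intro z hz
    have h1 : JJ w a G z = ∑ i, (w i : ℂ) * (G i z - z * lapC (a i) z) := by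
      unfold JJ
      rw [lapC_comb F hz, Finset.mul_sum, ← Finset.sum_sub_distrib]
      exact Finset.sum_congr rfl fun i _ => by ring
    have h2 : ∀ i, Real.log ‖Φ i z‖ = (G i z - z * lapC (a i) z).re := fun i => by
      rw [F.eq i z hz, Complex.norm_exp, Real.log_exp]
    rw [hH]
    simp only [h2]
    rw [h1, Complex.re_sum, sub_eq_zero]
    exact Finset.sum_congr rfl fun i _ => by rw [Complex.re_ofReal_mul]
  have hopen : IsOpen U := by
    rw [isOpen_iff_mem_nhds]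
    rintro z ⟨hz1, hz2⟩
    obtain ⟨r, hr, hb⟩ := Metric.eventually_nhds_iff_ball.1 (eventually_nhdsWithin_iff.1 hz2)
    filter_upwards [(isOpen_half s).mem_nhds hz1, Metric.ball_mem_nhds z hr] with y hy1 hy2
    refine ⟨hy1, ?_⟩
    by_cases hyz : y = z
    · rw [hyz]; exact hz2
    · filter_upwards [nhdsWithin_le_nhds (Metric.isOpen_ball.mem_nhds hy2),
        nhdsWithin_le_nhds (isOpen_ne.mem_nhds hyz)] with x hx1 hx2
      exact hb x hx1 hx2
  have hne : ({z : ℂ | s < z.re} ∩ U).Nonempty := by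
    refine ⟨((max s c0 + 1 : ℝ) : ℂ), ?_, ?_, ?_⟩
    · show s < (((max s c0 + 1 : ℝ) : ℂ)).re
      rw [Complex.ofReal_re]
      linarith [le_max_left s c0]
    · rw [Complex.ofReal_re]
      linarith [le_max_left s c0]
    · have hz1 : c0 < (((max s c0 + 1 : ℝ) : ℂ)).re := by
        rw [Complex.ofReal_re]
        linarith [le_max_right s c0]
      filter_upwards [nhdsWithin_le_nhds ((isOpen_half c0).mem_nhds hz1)] with z hz
      exact hfar z hz
  have hcl : closure U ∩ {z : ℂ | s < z.re} ⊆ U := by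
    rintro z ⟨hz1, hz2⟩
    refine ⟨hz2, ?_⟩
    obtain ⟨v, hv⟩ := F.const_near hs h (show s < z.re from hz2)
    have hv0 : v = 0 := by
      obtain ⟨r, hr, hb⟩ := Metric.eventually_nhds_iff_ball.1 (eventually_nhdsWithin_iff.1 hv)
      obtain ⟨y, hy1, hy2⟩ := Metric.mem_closure_iff.1 hz1 r hr
      have hyb : y ∈ Metric.ball z r := by rwa [Metric.mem_ball, dist_comm]
      have h1 : ∀ᶠ x in 𝓝[≠] y, x ∈ Metric.ball z r ∧ x ≠ z ∧ H x = 0 := by
        have e1 : ∀ᶠ x in 𝓝[≠] y, x ∈ Metric.ball z r :=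
          nhdsWithin_le_nhds (Metric.isOpen_ball.mem_nhds hyb)
        have e2 : ∀ᶠ x in 𝓝[≠] y, x ≠ z := by
          by_cases hyz : y = z
          · rw [hyz]; exact self_mem_nhdsWithin
          · exact nhdsWithin_le_nhds (isOpen_ne.mem_nhds hyz)
        filter_upwards [e1, e2, hy1.2] with x a1 a2 a3
        exact ⟨a1, a2, a3⟩
      obtain ⟨x, hx1, hx2, hx3⟩ := h1.exists
      have := hb x hx1 hx2
      rw [← this]
      exact hx3
    rw [hv0] at hv
    exact hv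
  have hall := (preconn_half s).subset_of_closure_inter_subset hopen hne hcl
  intro ρ hρ
  exact (hall hρ).2

theorem Fam.re_eq (F : Fam a Φ G c0) {s : ℝ} (hs : 0 ≤ s) (h : ∀ x > s, LInt (comb w a) x)
    {z : ℂ} (hz : s < z.re) (hne : ∀ i, Φ i z ≠ 0) :
    (JJ w a G z).re = ∑ i, w i * Real.log ‖Φ i z‖ := by
  have h1 := F.re_near hs h z hz
  have h2 : ContinuousAt (fun z => (JJ w a G z).re - ∑ i, w i * Real.log ‖Φ i z‖) z := by
    refine ContinuousAt.sub (Complex.continuous_re.continuousAt.comp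
      (F.JJ_diff hs h hz).continuousAt) ?_
    refine tendsto_finsetSum _ fun i _ => ?_
    refine ContinuousAt.mul continuousAt_const ?_
    exact ((F.hΦ i z (by linarith)).continuousAt.norm).log (norm_ne_zero_iff.2 (hne i))
  have h3 : (JJ w a G z).re - ∑ i, w i * Real.log ‖Φ i z‖ = 0 := by
    refine tendsto_nhds_unique (h2.tendsto.mono_left (nhdsWithin_le_nhds (s := {z}ᶜ))) ?_
    refine tendsto_const_nhds.congr' ?_
    filter_upwards [h1] with y hy
    exact hy.symm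
  linarith

/-- the Laplace transform on the real axis -/
theorem Fam.lap_re (F : Fam a Φ G c0) {s : ℝ} (hs : 0 ≤ s) (h : ∀ x > s, LInt (comb w a) x)
    {x : ℝ} (hx : s < x) (hne : ∀ i, Φ i x ≠ 0) :
    x * lap (comb w a) x = ∑ i, w i * (G i x).re - ∑ i, w i * Real.log ‖Φ i x‖ := by
  have h1 := F.re_eq hs h (z := x) (by rwa [Complex.ofReal_re]) hne
  unfold JJ at h1
  rw [lapC_ofReal, ← Complex.ofReal_mul, Complex.sub_re, Complex.ofReal_re, Complex.re_sum] at h1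
  have h2 : ∀ i, ((w i : ℂ) * G i x).re = w i * (G i x).re := fun i => by
    rw [Complex.re_ofReal_mul]
  simp only [h2] at h1
  linarith

/-- Landau's lemma, local form -/
theorem landau_local {b : ℝ → ℝ} (hbm : Measurable b) (hb : ∀ u, 0 < u → 0 ≤ b u) {s : ℝ}
    (hi : ∀ x > s, LInt b x) {g : ℂ → ℂ} (hg : AnalyticAt ℂ g (s : ℂ))
    (he : ∀ᶠ x : ℝ in 𝓝[>] s, lap b x = (g x).re) : ∃ t < s, LInt b t := by
  have h1 : AnalyticAt ℂ (fun z => g (-z)) ((-s : ℝ) : ℂ) := by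
    refine AnalyticAt.fun_comp (g := g) (f := fun z : ℂ => -z) ?_ (by fun_prop)
    push_cast
    rw [neg_neg]
    exact hg
  have h2 := h1.re_ofReal
  have h3 : ∀ᶠ t : ℝ in 𝓝[<] (-s), lap b (-t) = (g ((-t : ℝ) : ℂ)).re := by
    have h4 : Tendsto (fun t : ℝ => -t) (𝓝[<] (-s)) (𝓝[>] s) := by
      have := tendsto_neg_nhdsLT (a := -s)
      rwa [neg_neg] at this
    exact h4.eventually he
  obtain ⟨t, ht1, ht2⟩ := landau (X := id) (μ := dens b) (dens_pos b hbm) h2
    (fun t ht => (mem_integrableExpSet_dens hbm hb t).mpr (hi (-t) (by linarith))) (by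
      filter_upwards [h3] with t ht
      rw [mgf_dens hbm hb, ht]
      push_cast
      rfl)
  exact ⟨-t, by linarith, (mem_integrableExpSet_dens hbm hb t).mp ht2⟩

/-- the step at the abscissa of convergence -/
theorem Fam.step (F : Fam a Φ G c0) {s w0 : ℝ} (hw0 : 0 ≤ w0) (hs : w0 < s)
    (h : ∀ x > s, LInt (comb w a) x) {κ : ℝ → ℝ} (hκ : Measurable κ)
    (hκi : ∀ x > w0, LInt κ x) {ε : ℝ} (hε : ε = 1 ∨ ε = -1)
    (hb : ∀ u, 0 < u → 0 ≤ ε * (κ u - comb w a u)) (hsg : 0 ≤ ε * mult w Φ s) :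
    ∃ t < s, LInt (fun u => ε * (κ u - comb w a u)) t := by
  have hs0 : 0 < s := by linarith
  have hsre : 0 < ((s : ℂ)).re := by rwa [Complex.ofReal_re]
  obtain ⟨ψ, h1, h2, h3⟩ := F.exists_factors hsre
  obtain ⟨g1, -, g3⟩ := log_near (w := w) h1 h2
  set M := mult w Φ s with hM
  set C : ℝ := ∑ i, w i * Real.log ‖ψ i s‖ with hC
  set N : ℂ → ℂ := fun z => ∑ i, (w i : ℂ) * G i z -
    ∑ i, (w i : ℂ) * Complex.log (ψ i z / ψ i s) - (C : ℂ) with hN
  have hNan : AnalyticAt ℂ N (s : ℂ) := by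
    refine AnalyticAt.sub (AnalyticAt.sub ?_ g1) analyticAt_const
    exact Finset.analyticAt_fun_sum _ fun i _ => analyticAt_const.mul (F.G_an i _ hsre)
  have hofr : Tendsto (fun x : ℝ => (x : ℂ)) (𝓝[>] s) (𝓝 (s : ℂ)) :=
    (Complex.continuous_ofReal.tendsto s).mono_left nhdsWithin_le_nhds
  -- the transform to the right of `s`
  have h4 : ∀ᶠ x : ℝ in 𝓝[>] s, x * lap (comb w a) x = (N x).re - M * Real.log (x - s) := by
    have e1 := hofr.eventually g3
    have e2 := hofr.eventually (eventually_all.2 h3)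
    have e3 : ∀ᶠ z in 𝓝 (s : ℂ), ∀ i, ψ i z ≠ 0 :=
      eventually_all.2 fun i => (h1 i).continuousAt.eventually_ne (h2 i)
    filter_upwards [e1, e2, hofr.eventually e3, self_mem_nhdsWithin] with x a1 a2 a3 a4
    have hx : s < x := a4
    have hxs : (x : ℂ) - s ≠ 0 := by
      rw [← Complex.ofReal_sub]
      exact_mod_cast (sub_pos.2 hx).ne'
    have hne : ∀ i, Φ i x ≠ 0 := fun i => by
      rw [a2 i]
      exact mul_ne_zero (pow_ne_zero _ hxs) (a3 i)
    have h5 := F.lap_re hs0.le h hx hne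
    have h6 : ∑ i, w i * Real.log ‖Φ i x‖ = ∑ i, w i * Real.log ‖ψ i x‖ + M * Real.log (x - s) := by
      rw [hM]
      unfold mult
      rw [Finset.sum_mul, ← Finset.sum_add_distrib]
      refine Finset.sum_congr rfl fun i _ => ?_
      have h7 : ‖(x : ℂ) - s‖ = x - s := by
        rw [← Complex.ofReal_sub, Complex.norm_real, Real.norm_of_nonneg (by linarith)]
      rw [a2 i, norm_mul, norm_pow, h7, Real.log_mul (pow_ne_zero _ (sub_pos.2 hx).ne')
        (norm_ne_zero_iff.2 (a3 i)), Real.log_pow]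
      ring
    rw [h5, h6, hN]
    simp only [Complex.sub_re, Complex.ofReal_re]
    rw [a1, Complex.re_sum]
    have h8 : ∀ i, ((w i : ℂ) * G i x).re = w i * (G i x).re := fun i => by
      rw [Complex.re_ofReal_mul]
    simp only [h8]
    ring
  have hκan : AnalyticAt ℂ (lapC κ) (s : ℂ) :=
    (DifferentiableOn.analyticOnNhd (fun z hz =>
      (lapC_differentiableAt hκ hκi hz).differentiableWithinAt) (isOpen_half w0)) s
      (show w0 < ((s : ℂ)).re by rwa [Complex.ofReal_re])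
  have hlapκ : ∀ x : ℝ, lap κ x = (lapC κ x).re := fun x => by
    rw [lapC_ofReal, Complex.ofReal_re]
  have hlap : ∀ x > s, lap (fun u => ε * (κ u - comb w a u)) x =
      ε * (lap κ x - lap (comb w a) x) := fun x hx => by
    rw [lap_const_mul, lap_sub (hκi x (by linarith)) (h x hx)]
  -- the sign
  have hM0 : M = 0 := by
    by_contra hM1
    have hpos : 0 < ε * M := lt_of_le_of_ne hsg (by
      rcases hε with e | e <;> rw [e] <;> intro h0 <;> apply hM1 <;> linarith)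
    have h5 : Tendsto (fun x : ℝ => ε * (N x).re - x * (ε * (lapC κ x).re)) (𝓝[>] s)
        (𝓝 (ε * (N s).re - s * (ε * (lapC κ s).re))) := by
      have e1 : Tendsto (fun x : ℝ => (N x).re) (𝓝[>] s) (𝓝 (N s).re) :=
        (Complex.continuous_re.tendsto _).comp (hNan.continuousAt.tendsto.comp hofr)
      have e2 : Tendsto (fun x : ℝ => (lapC κ x).re) (𝓝[>] s) (𝓝 (lapC κ s).re) :=
        (Complex.continuous_re.tendsto _).comp (hκan.continuousAt.tendsto.comp hofr)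
      have e3 : Tendsto (fun x : ℝ => x) (𝓝[>] s) (𝓝 s) :=
        tendsto_nhdsWithin_of_tendsto_nhds tendsto_id
      exact (e1.const_mul ε).sub (e3.mul (e2.const_mul ε))
    have h6 : Tendsto (fun x : ℝ => -(ε * M) * Real.log (x - s)) (𝓝[>] s) atTop := by
      have e1 : Tendsto (fun x : ℝ => x - s) (𝓝[>] s) (𝓝[>] 0) := by
        refine tendsto_nhdsWithin_iff.2 ⟨?_, ?_⟩
        · have : Tendsto (fun x : ℝ => x - s) (𝓝 s) (𝓝 (s - s)) :=
            (continuous_id.sub continuous_const).tendsto s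
          rw [sub_self] at this
          exact this.mono_left nhdsWithin_le_nhds
        · filter_upwards [self_mem_nhdsWithin] with x hx
          have hx' : s < x := hx
          exact sub_pos.2 hx'
      have e2 := Real.tendsto_log_nhdsGT_zero.comp e1
      exact e2.const_mul_atBot_of_neg (by linarith)
    have h7 := h6.atTop_add h5
    have h8 : ∀ᶠ x : ℝ in 𝓝[>] s, -(ε * M) * Real.log (x - s) +
        (ε * (N x).re - x * (ε * (lapC κ x).re)) ≤ 0 := by
      filter_upwards [h4, self_mem_nhdsWithin] with x a1 a2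
      have hx : s < x := a2
      have hx0 : 0 < x := by linarith
      have a3 := Pool.Agent.W263.BSD.lap_nonneg hb x
      rw [hlap x hx, hlapκ] at a3
      have a4 := mul_nonneg hx0.le a3
      have a5 : x * (ε * ((lapC κ x).re - lap (comb w a) x)) =
          x * (ε * (lapC κ x).re) - ε * (x * lap (comb w a) x) := by ring
      rw [a5, a1] at a4
      linarith
    obtain ⟨x, hx1, hx2⟩ := (h8.and (h7.eventually (eventually_gt_atTop 0))).exists
    linarith
  -- Landau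
  refine landau_local (b := fun u => ε * (κ u - comb w a u))
    ((hκ.sub (comb_meas F)).const_mul ε) hb (s := s) (fun x hx =>
    ((hκi x (by linarith)).sub (h x hx)).const_mul ε)
    (g := fun z => (ε : ℂ) * (lapC κ z - N z / z)) ?_ ?_
  · refine analyticAt_const.mul (hκan.sub (hNan.div analyticAt_id ?_))
    exact_mod_cast hs0.ne'
  · filter_upwards [h4, self_mem_nhdsWithin] with x a1 a2
    have hx : s < x := a2
    have hx0 : 0 < x := by linarith
    rw [hM0, zero_mul, sub_zero] at a1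
    rw [hlap x hx, Complex.re_ofReal_mul, Complex.sub_re, ← hlapκ, Complex.div_ofReal_re, ← a1]
    field_simp

/-- **One-sided bounds imply convergence.** -/
theorem Fam.conv (F : Fam a Φ G c0) {w0 : ℝ} (hw0 : 0 ≤ w0) {κ : ℝ → ℝ} (hκ : Measurable κ)
    (hκi : ∀ x > w0, LInt κ x) {ε : ℝ} (hε : ε = 1 ∨ ε = -1)
    (hb : ∀ u, 0 < u → 0 ≤ ε * (κ u - comb w a u))
    (hsg : ∀ x : ℝ, w0 < x → 0 ≤ ε * mult w Φ x) : ∀ x > w0, LInt (comb w a) x := by
  set T : Set ℝ := {t | w0 ≤ t ∧ ∀ x > t, LInt (comb w a) x} with hT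
  have hTne : T.Nonempty := ⟨max w0 c0, le_max_left _ _, fun x hx =>
    comb_LInt F (lt_of_le_of_lt (le_max_right _ _) hx)⟩
  have hTb : BddBelow T := ⟨w0, fun t ht => ht.1⟩
  set s := sInf T with hs
  have hs0 : w0 ≤ s := le_csInf hTne fun t ht => ht.1
  have hconv : ∀ x > s, LInt (comb w a) x := by
    intro x hx
    obtain ⟨t, ht, htx⟩ := exists_lt_of_csInf_lt hTne hx
    exact ht.2 x htx
  rcases hs0.eq_or_lt with h0 | h0
  · rw [h0]; exact hconv
  exfalso
  obtain ⟨t, ht, ht1⟩ := F.step hw0 h0 hconv hκ hκi hε hb (hsg s h0)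
  set t' : ℝ := max t ((w0 + s) / 2) with ht'
  have h5 : t' < s := max_lt ht (by linarith)
  have hbm : Measurable (fun u => ε * (κ u - comb w a u)) := (hκ.sub (comb_meas F)).const_mul ε
  have h6 : t' ∈ T := by
    refine ⟨le_trans (by linarith) (le_max_right _ _), fun x hx => ?_⟩
    have h7 : LInt (fun u => ε * (κ u - comb w a u)) x :=
      ht1.mono hbm (le_trans (le_max_left _ _) (le_of_lt hx))
    have h8 : LInt κ x := hκi x (lt_of_lt_of_le (by linarith) (le_trans (le_max_right _ _)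
      (le_of_lt hx)))
    have h9 := h8.sub (h7.const_mul ε)
    have h10 : (fun u => κ u - ε * (ε * (κ u - comb w a u))) = comb w a := by
      funext u
      rcases hε with h | h <;> rw [h] <;> ring
    rwa [h10] at h9
  have := csInf_le hTb h6
  linarith

end Pool.Agent.H21.RC
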