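import Pool.Agent.H21.RC.Near

/-!
# Several elliptic curves over the rational numbers
-/

set_option autoImplicit false

namespace Pool.Agent.H21.RC

open MeasureTheory Filter Topology Set
open Pool.Agent.W263.BSD

theorem sq_three : ∀ y y' : ZMod 3, y ^ 2 = y' ^ 2 → (y = 1 ↔ y' = 1) → y = y' := by decide

/-- the local factors do not vanish for `Re z > 0` -/
theorem ef_ne {a b : ℤ} {p : ℕ} (h : GoodPrime a b p) {z : ℂ} (hz : 0 < z.re) : ef a b p z ≠ 0 := by
  have hp := h.1
  have hp2 : p ≠ 2 := by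
    rintro rfl
    exact h.2 ⟨-4 * a ^ 3 - 27 * b ^ 2, by push_cast; ring⟩
  have hp3 : 3 ≤ p := by
    have := hp.two_le
    omega
  have hp0 : (0 : ℝ) < p := by exact_mod_cast hp.pos
  -- the Hasse bound
  have hH : |(p : ℝ) - pointCount a b p| ≤ 2 * √p := by
    rcases le_or_gt 5 p with h5 | h5
    · exact hasse h h5
    · have hp' : p = 3 := by
        have h4 : p ≠ 4 := by
          rintro rfl
          exact absurd hp (by norm_num)
        omega
      subst hp'
      have : Fact (Nat.Prime 3) := ⟨hp⟩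
      have h1 : pointCount a b 3 ≤ 6 := by
        unfold pointCount
        have h2 : Function.Injective (fun q : {q : ZMod 3 × ZMod 3 //
            q.2 ^ 2 = q.1 ^ 3 + (a : ZMod 3) * q.1 + (b : ZMod 3)} =>
            ((q.1.1, decide (q.1.2 = 1)) : ZMod 3 × Bool)) := by
          rintro ⟨⟨x, y⟩, hxy⟩ ⟨⟨x', y'⟩, hxy'⟩ he
          simp only [Prod.mk.injEq, decide_eq_decide] at he
          obtain ⟨rfl, he⟩ := he
          have h3 : y ^ 2 = y' ^ 2 := hxy.trans hxy'.symm
          have h5 := sq_three y y' h3 he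
          subst h5
          rfl
        have h3 := Nat.card_le_card_of_injective _ h2
        have h6 : Nat.card (ZMod 3 × Bool) = 6 := by
          rw [Nat.card_prod, Nat.card_zmod, Nat.card_eq_fintype_card (α := Bool), Fintype.card_bool]
        rwa [h6] at h3
      have h2 : (pointCount a b 3 : ℝ) ≤ 6 := by exact_mod_cast h1
      have h3 : (0 : ℝ) ≤ pointCount a b 3 := by positivity
      have h4 : (1.7 : ℝ) ≤ √((3 : ℕ) : ℝ) := by
        refine Real.le_sqrt_of_sq_le ?_
        norm_num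
      push_cast
      push_cast at h4
      rw [abs_le]
      constructor <;> linarith
  rw [ef_eq hp.one_le]
  intro h0
  -- `Y = δ X`
  set δ := dl p with hδ
  have hδ0 : 0 < δ := by
    rw [hδ]
    unfold dl
    positivity
  have hδ2 : δ ^ 2 = 1 / p := dl_sq hp.one_le
  set X := xp p z with hX
  have hXn : ‖X‖ ≤ 1 := norm_xp_le hp.one_le hz.le
  have hδ1 : δ < 1 := by
    have h1 : δ ^ 2 < 1 := by
      rw [hδ2, div_lt_one hp0]
      have : (3 : ℝ) ≤ p := by exact_mod_cast hp3
      linarith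
    nlinarith
  have ht : |tt (Ap a b) p| ≤ 2 * δ := by
    unfold tt Ap
    rw [abs_div, abs_of_pos hp0, div_le_iff₀ hp0]
    refine hH.trans (le_of_eq ?_)
    have h1 : δ * p = √p := by
      have h2 : 0 ≤ δ * p := by positivity
      have h3 : (δ * p) ^ 2 = p := by
        have h4 : (δ * (p : ℝ)) ^ 2 = δ ^ 2 * (p : ℝ) * p := by ring
        rw [h4, hδ2]
        field_simp
      have h5 := Real.sqrt_sq h2
      rw [h3] at h5
      exact h5.symm
    rw [mul_assoc, h1]
  unfold fac at h0
  set t := tt (Ap a b) p with htdef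
  -- the polynomial in `Y`
  set Y : ℂ := (δ : ℂ) * X with hY
  have hYn : ‖Y‖ < 1 := by
    rw [hY, norm_mul, Complex.norm_real, Real.norm_of_nonneg hδ0.le]
    calc δ * ‖X‖ ≤ δ * 1 := mul_le_mul_of_nonneg_left hXn hδ0.le
      _ < 1 := by linarith
  set τ : ℝ := t / δ with hτ
  have hτ2 : |τ| ≤ 2 := by
    rw [hτ, abs_div, abs_of_pos hδ0, div_le_iff₀ hδ0]
    exact ht
  have hq : 1 - (τ : ℂ) * Y + Y ^ 2 = 0 := by
    rw [← h0, hY, hτ]
    have : (δ : ℂ) ≠ 0 := by exact_mod_cast hδ0.ne'
    push_cast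
    rw [← hδ]
    field_simp
  have hre := congrArg Complex.re hq
  have him := congrArg Complex.im hq
  simp only [Complex.add_re, Complex.sub_re, Complex.one_re, Complex.mul_re, Complex.ofReal_re,
    Complex.ofReal_im, zero_mul, sub_zero, Complex.zero_re, Complex.add_im, Complex.sub_im,
    Complex.one_im, Complex.mul_im, add_zero, Complex.zero_im, pow_two] at hre him
  have hn : Y.re ^ 2 + Y.im ^ 2 < 1 := by
    have h1 : ‖Y‖ ^ 2 = Y.re ^ 2 + Y.im ^ 2 := by
      rw [← Complex.normSq_eq_norm_sq, Complex.normSq_apply]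
      ring
    rw [← h1]
    have := norm_nonneg Y
    nlinarith
  have h1 : Y.im * (2 * Y.re - τ) = 0 := by linarith
  rcases mul_eq_zero.1 h1 with h2 | h2
  · rw [h2] at hre hn
    have h3 : τ ^ 2 ≤ 4 := by
      have := abs_le.1 hτ2
      nlinarith
    nlinarith [sq_nonneg (2 * Y.re - τ)]
  · have h3 : τ = 2 * Y.re := by linarith
    rw [h3] at hre
    nlinarith

theorem small_ne {a b : ℤ} {z : ℂ} (hz : 0 < z.re) : small a b z ≠ 0 := by
  unfold small
  refine Finset.prod_ne_zero_iff.2 fun p _ => ?_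
  split_ifs with h
  · exact ef_ne h hz
  · exact one_ne_zero

/-- the multiplicities -/
theorem order_PhiF {a b : ℤ} {F : ℂ → ℂ} (hF : Pool.Agent.W263.BSD.IsLSeries a b F) {z : ℂ}
    (hz : 0 < z.re) :
    analyticOrderNatAt (PhiF a b F) z = analyticOrderNatAt F (1 + z) := by
  have h1 : AnalyticAt ℂ (fun w : ℂ => F (1 + w)) z := by
    have : Differentiable ℂ (fun w : ℂ => F (1 + w)) := hF.1.comp (by fun_prop)
    exact this.analyticAt z
  have h2 : AnalyticAt ℂ (small a b) z := small_differentiable.analyticAt z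
  have h3 : analyticOrderAt (small a b) z = 0 := by
    rw [h2.analyticOrderAt_eq_zero]
    exact small_ne hz
  have h4 : analyticOrderAt (PhiF a b F) z = analyticOrderAt (fun w : ℂ => F (1 + w)) z := by
    have : PhiF a b F = (fun w : ℂ => F (1 + w)) * small a b := rfl
    rw [this, analyticOrderAt_mul h1 h2, h3, add_zero]
  have h5 : analyticOrderAt (fun w : ℂ => F (1 + w)) z = analyticOrderAt F (1 + z) := by
    have hg : AnalyticAt ℂ (fun w : ℂ => 1 + w) z := by fun_prop
    have := analyticOrderAt_comp_of_deriv_ne_zero (f := F) (g := fun w : ℂ => 1 + w) (z₀ := z) hg (by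
      have : deriv (fun w : ℂ => 1 + w) z = 1 := by
        rw [deriv_const_add]
        exact deriv_id z
      rw [this]
      exact one_ne_zero)
    exact this
  unfold analyticOrderNatAt
  rw [h4, h5]

variable {ι : Type} [Fintype ι] {a b : ι → ℤ} {F : ι → ℂ → ℂ} {r : ι → ℕ} {w : ι → ℝ}

/-- the functions of the curves -/
noncomputable def av (a b : ι → ℤ) (i : ι) : ℝ → ℝ := aak (SS (a i) (b i)) (Ap (a i) (b i)) 0

noncomputable def sv (a b : ι → ℤ) (i : ι) : ℝ → ℝ := sc (SS (a i) (b i)) (Ap (a i) (b i))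

noncomputable def cv (a b : ι → ℤ) (F : ι → ℂ → ℂ) (r : ι → ℕ) (i : ι) : ℝ :=
  leadAbs (F i) (r i) * ‖small (a i) (b i) 0‖

theorem near (hF : ∀ i, Pool.Agent.W263.BSD.IsLSeries (a i) (b i) (F i))
    (hr : ∀ i, analyticOrderAt (F i) 1 = r i) :
    Near (av a b) (fun i => PhiF (a i) (b i) (F i)) (fun i => GG (SS (a i) (b i)) (Ap (a i) (b i)))
      2 r (cv a b F r) where
  F := {
    meas := fun i => (data 0 (hF i)).meas
    c0_nonneg := zero_le_two
    int := fun i x hx => (data 0 (hF i)).int x hx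
    hΦ := fun i z _ => PhiF_differentiable (hF i) z
    hG := fun i z hz => (data 0 (hF i)).hG z hz
    eq := fun i z hz => by
      have := (data 0 (hF i)).eq z hz
      rw [zero_add, pow_one] at this
      exact this }
  hloc := fun i u => (eData (a i) (b i)).aak_abs 0 u
  Gb := fun i => (eData (a i) (b i)).GG_bound
  cpos := fun i => c_pos (lead_limit (hF i).1 (hr i)).1
  lim := fun i => phi_limit (hF i) (hr i)

theorem cor (a b : ι → ℤ) : Cor (fun i => GG (SS (a i) (b i)) (Ap (a i) (b i))) (sv a b) where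
  meas := fun _ => sc_meas
  int := fun i _ hx => (eData (a i) (b i)).sc_LInt hx
  bd := fun i => (eData (a i) (b i)).sc_bounded
  slow := fun i _ hε => (eData (a i) (b i)).sc_slow hε
  lim := fun i => by
    have E := eData (a i) (b i)
    refine E.G3.congr' ?_
    filter_upwards [self_mem_nhdsWithin] with x hx
    have hx0 : (0 : ℝ) < x := hx
    have h6 : lap (sv a b i) x = lap (stp (mc (SS (a i) (b i)) (Ap (a i) (b i)))) x -
        lap (fun u => stp (mc (SS (a i) (b i)) (Ap (a i) (b i))) (u / 2)) x := by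
      unfold sv sc
      rw [lap_sub (E.mc_LInt hx0) (LInt_half (E.mc_LInt (by linarith)))]
    have h7 := lap_half (f := stp (mc (SS (a i) (b i)) (Ap (a i) (b i)))) (w := x)
    rw [h6]
    linear_combination -h7

theorem mult_eq (hF : ∀ i, Pool.Agent.W263.BSD.IsLSeries (a i) (b i) (F i)) {z : ℂ} (hz : 0 < z.re) :
    mult w (fun i => PhiF (a i) (b i) (F i)) z =
      ∑ i, w i * (analyticOrderNatAt (F i) (1 + z) : ℝ) := by
  unfold mult
  exact Finset.sum_congr rfl fun i _ => by rw [order_PhiF (hF i) hz]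

/-- the product with real exponents -/
noncomputable def QQ (w : ι → ℝ) (a b : ι → ℤ) (x : ℝ) : ℝ := ∏ i, bsdProduct (a i) (b i) x ^ w i

theorem QQ_pos (x : ℝ) : 0 < QQ w a b x :=
  Finset.prod_pos fun _ _ => Real.rpow_pos_of_pos (bsdProduct_pos x) _

theorem log_QQ (x : ℝ) : Real.log (QQ w a b x) = ∑ i, w i * Real.log (bsdProduct (a i) (b i) x) := by
  unfold QQ
  rw [Real.log_prod fun i _ => (Real.rpow_pos_of_pos (bsdProduct_pos x) _).ne']
  exact Finset.sum_congr rfl fun i _ => Real.log_rpow (bsdProduct_pos x) _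

/-- the constant -/
noncomputable def kv (w : ι → ℝ) (a b : ι → ℤ) : ℝ := ∑ i, w i * kap (a i) (b i)

theorem log_QQ_exp {u : ℝ} (hu : 4 ≤ u) :
    Real.log (QQ w a b (Real.exp u)) = comb w (av a b) u + kv w a b := by
  rw [log_QQ]
  unfold comb kv av
  rw [← Finset.sum_add_distrib]
  refine Finset.sum_congr rfl fun i _ => ?_
  rw [log_bsd_eq hu]
  ring

theorem log_QQ_eq {x : ℝ} (hx : Real.exp 4 ≤ x) :
    Real.log (QQ w a b x) = comb w (av a b) (Real.log x) + kv w a b := by
  have hx0 : 0 < x := (Real.exp_pos 4).trans_le hx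
  have h1 : 4 ≤ Real.log x := by rwa [Real.le_log_iff_exp_le hx0]
  have := log_QQ_exp (w := w) (a := a) (b := b) h1
  rwa [Real.exp_log hx0] at this

/-- the target constant -/
theorem target (hpos : ∀ i, 0 < leadAbs (F i) (r i)) :
    KK w r (cv a b F r) + kv w a b =
      ∑ i, w i * Real.log (Real.exp (r i * Real.eulerMascheroniConstant) / leadAbs (F i) (r i)) := by
  unfold KK kv cv
  rw [← Finset.sum_add_distrib]
  refine Finset.sum_congr rfl fun i _ => ?_
  rw [← target_eq (a := a i) (b := b i) (hpos i)]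
  ring

/-- the corrections converge -/
theorem corr_lim (hΔ : ∀ i, 4 * a i ^ 3 + 27 * b i ^ 2 ≠ 0)
    (hrs : ∀ i, Tendsto (rsSum (a i) (b i)) atTop (𝓝 0)) :
    Tendsto (comb w (sv a b)) atTop (𝓝 (∑ i, w i * (Real.log 2 / 2))) := by
  unfold comb
  refine tendsto_finsetSum _ fun i _ => ?_
  refine Tendsto.const_mul _ ?_
  have h1 := ((corr_tendsto (hΔ i) (hrs i)).comp Real.tendsto_exp_atTop).neg
  rw [neg_neg] at h1
  refine h1.congr' ?_
  filter_upwards [eventually_ge_atTop 8] with u hu
  simp only [Function.comp_apply]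
  rw [corr_eq hu, neg_neg]
  rfl

/-- the limit of `log Q - R log log` -/
theorem log_lim (hΔ : ∀ i, 4 * a i ^ 3 + 27 * b i ^ 2 ≠ 0)
    (hrs : ∀ i, Tendsto (rsSum (a i) (b i)) atTop (𝓝 0)) {K : ℝ}
    (h : Tendsto (ff w (av a b) (sv a b) r) atTop (𝓝 K)) :
    Tendsto (fun x : ℝ => Real.log (QQ w a b x) - RR w r * Real.log (Real.log x)) atTop
      (𝓝 (K + kv w a b + ∑ i, w i * (Real.log 2 / 2))) := by
  have h1 := ((h.add (corr_lim (w := w) hΔ hrs)).add (ell_sub_log.const_mul (RR w r))).comp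
    Real.tendsto_log_atTop
  rw [mul_zero, add_zero] at h1
  have h2 := h1.add_const (kv w a b)
  have e : K + ∑ i, w i * (Real.log 2 / 2) + kv w a b = K + kv w a b + ∑ i, w i * (Real.log 2 / 2) := by
    ring
  rw [e] at h2
  refine h2.congr' ?_
  filter_upwards [eventually_ge_atTop (Real.exp 4)] with x hx
  simp only [Function.comp_apply]
  rw [log_QQ_eq hx]
  unfold ff
  ring

/-- and back -/
theorem ff_lim {ρ K : ℝ}
    (h : Tendsto (fun x : ℝ => Real.log (QQ w a b x) - ρ * Real.log (Real.log x)) atTop (𝓝 K)) :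
    Tendsto (fun u : ℝ => comb w (av a b) u - ρ * ell u) atTop (𝓝 (K - kv w a b)) := by
  have h1 := (h.comp Real.tendsto_exp_atTop).sub (ell_sub_log.const_mul ρ)
  rw [mul_zero, sub_zero] at h1
  have h2 := h1.sub_const (kv w a b)
  refine h2.congr' ?_
  filter_upwards [eventually_ge_atTop 4] with u hu
  simp only [Function.comp_apply]
  rw [log_QQ_exp hu, Real.log_exp]
  ring

end Pool.Agent.H21.RC
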