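import Pool.Agent.H21.RC.Curve

/-!
# Laws for the product `∏ P_i(x)^(w_i)` of several elliptic curves
-/

set_option autoImplicit false

namespace Pool.Agent.H21.RC

open MeasureTheory Filter Topology Set
open Pool.Agent.W263.BSD

variable {ι : Type} [Fintype ι] {a b : ι → ℤ} {F : ι → ℂ → ℂ} {r : ι → ℕ} {w : ι → ℝ}

/-- the weighted multiplicities -/
noncomputable def wt (F : ι → ℂ → ℂ) (w : ι → ℝ) (s : ℂ) : ℝ :=
  ∑ i, w i * (analyticOrderNatAt (F i) s : ℝ)

theorem wt_neg (s : ℂ) : wt F (fun i => -w i) s = -wt F w s := by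
  unfold wt
  rw [← Finset.sum_neg_distrib]
  exact Finset.sum_congr rfl fun i _ => by ring

theorem QQ_neg (x : ℝ) : Real.log (QQ (fun i => -w i) a b x) = -Real.log (QQ w a b x) := by
  rw [log_QQ, log_QQ, ← Finset.sum_neg_distrib]
  exact Finset.sum_congr rfl fun i _ => by ring

theorem kv_neg : kv (fun i => -w i) a b = -kv w a b := by
  unfold kv
  rw [← Finset.sum_neg_distrib]
  exact Finset.sum_congr rfl fun i _ => by ring

theorem mult_wt (hF : ∀ i, Pool.Agent.W263.BSD.IsLSeries (a i) (b i) (F i)) {z : ℂ} (hz : 0 < z.re) :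
    mult w (fun i => PhiF (a i) (b i) (F i)) z = wt F w (1 + z) := mult_eq hF hz

theorem sg_of (hF : ∀ i, Pool.Agent.W263.BSD.IsLSeries (a i) (b i) (F i)) {θ : ℝ} (hθ : 0 ≤ θ)
    (h : ∀ s : ℝ, 1 + θ < s → 0 ≤ wt F w s) (x : ℝ) (hx : θ < x) :
    0 ≤ mult w (fun i => PhiF (a i) (b i) (F i)) x := by
  rw [mult_wt hF (by rw [Complex.ofReal_re]; linarith)]
  have := h (1 + x) (by linarith)
  push_cast at this
  exact this

theorem sg_of' (hF : ∀ i, Pool.Agent.W263.BSD.IsLSeries (a i) (b i) (F i))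
    (h : ∀ s : ℝ, 1 < s → wt F w s ≤ 0) (x : ℝ) (hx : 0 < x) :
    mult w (fun i => PhiF (a i) (b i) (F i)) x ≤ 0 := by
  rw [mult_wt hF (by rwa [Complex.ofReal_re])]
  have := h (1 + x) (by linarith)
  push_cast at this
  exact this

/-- convergence gives cancellation of the multiplicities -/
theorem cancel_of (hF : ∀ i, Pool.Agent.W263.BSD.IsLSeries (a i) (b i) (F i))
    (hr : ∀ i, analyticOrderAt (F i) 1 = r i) {θ : ℝ} (hθ : 0 ≤ θ)
    (h : ∀ x > θ, LInt (comb w (av a b)) x) (s : ℂ) (hs : 1 + θ < s.re) : wt F w s = 0 := by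
  have h1 : θ < (s - 1).re := by
    rw [Complex.sub_re, Complex.one_re]
    linarith
  have h2 := (near hF hr).F.mult_zero hθ h h1
  rw [mult_wt hF (by linarith), add_sub_cancel] at h2
  exact h2

/-- transfer of upper power bounds -/
theorem upper_tr {θ : ℝ} (hθ : 0 ≤ θ) (h : ∀ ε : ℝ, 0 < ε → ∀ᶠ x : ℝ in atTop,
    Real.log (QQ w a b x) ≤ x ^ (θ + ε)) :
    ∀ ε > θ, ∀ᶠ u in atTop, comb w (av a b) u ≤ Real.exp (ε * u) := by
  intro ε hε
  have h1 := Real.tendsto_exp_atTop.eventually (h ((ε - θ) / 2) (by linarith))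
  have h2 : ∀ᶠ u : ℝ in atTop, |kv w a b| + 1 ≤ Real.exp ((ε - θ) / 2 * u) :=
    (Real.tendsto_exp_atTop.comp (tendsto_id.const_mul_atTop (by linarith))).eventually
      (eventually_ge_atTop _)
  filter_upwards [h1, h2, eventually_ge_atTop 4, eventually_ge_atTop 0] with u e1 e2 e3 e4
  rw [log_QQ_exp e3, ← Real.exp_mul] at e1
  have e6 : Real.exp (ε * u) = Real.exp (u * (θ + (ε - θ) / 2)) * Real.exp ((ε - θ) / 2 * u) := by
    rw [← Real.exp_add]
    congr 1
    ring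
  have e7 : 1 ≤ Real.exp (u * (θ + (ε - θ) / 2)) :=
    Real.one_le_exp (mul_nonneg e4 (by linarith))
  have e8 := neg_abs_le (kv w a b)
  rw [e6]
  nlinarith [abs_nonneg (kv w a b)]

/-- upper power bounds and cancellation -/
theorem conv_power (hF : ∀ i, Pool.Agent.W263.BSD.IsLSeries (a i) (b i) (F i))
    (hr : ∀ i, analyticOrderAt (F i) 1 = r i) {θ : ℝ} (hθ : 0 ≤ θ)
    (hsg : ∀ s : ℝ, 1 + θ < s → 0 ≤ wt F w s)
    (h : ∀ ε : ℝ, 0 < ε → ∀ᶠ x : ℝ in atTop, Real.log (QQ w a b x) ≤ x ^ (θ + ε)) :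
    ∀ x > θ, LInt (comb w (av a b)) x :=
  (near hF hr).conv_upper hθ (sg_of hF hθ hsg) (upper_tr hθ h)

theorem conv_power_both (hF : ∀ i, Pool.Agent.W263.BSD.IsLSeries (a i) (b i) (F i))
    (hr : ∀ i, analyticOrderAt (F i) 1 = r i) {θ : ℝ} (hθ : 0 ≤ θ)
    (h : ∀ ε : ℝ, 0 < ε → ∀ᶠ x : ℝ in atTop, |Real.log (QQ w a b x)| ≤ x ^ (θ + ε)) :
    ∀ x > θ, LInt (comb w (av a b)) x := by
  refine (near hF hr).conv_both hθ fun ε hε => ?_
  have h1 := upper_tr (w := w) hθ (fun ε hε => (h ε hε).mono fun x hx =>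
    (le_abs_self _).trans hx) ε hε
  have h2 := upper_tr (w := fun i => -w i) hθ (fun ε hε => (h ε hε).mono fun x hx => by
    rw [QQ_neg]
    exact (neg_le_abs _).trans hx) ε hε
  filter_upwards [h1, h2] with u e1 e2
  rw [comb_neg] at e2
  rw [abs_le]
  constructor <;> linarith

/-! ### iterated logarithms -/

theorem ell_close : ∀ᶠ u : ℝ in atTop, |ell u - Real.log u| ≤ 1 := by
  have := ell_sub_log.abs.eventually (gt_mem_nhds (show |(0 : ℝ)| < 1 by norm_num))
  filter_upwards [this] with u hu using hu.le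

/-- one-sided bounds by powers of the logarithm -/
theorem kappa_bound (hF : ∀ i, Pool.Agent.W263.BSD.IsLSeries (a i) (b i) (F i))
    (hr : ∀ i, analyticOrderAt (F i) 1 = r i) {ρ M : ℝ} (h : ∀ᶠ x : ℝ in atTop,
      Real.log (QQ w a b x) ≤ ρ * Real.log (Real.log x) + M) :
    ∃ B : ℝ, 0 ≤ B ∧ ∀ u, 0 < u → comb w (av a b) u ≤ ρ * ell u + B := by
  have h1 := Real.tendsto_exp_atTop.eventually h
  obtain ⟨U, hU⟩ := eventually_atTop.1 (h1.and (ell_close.and (eventually_ge_atTop 4)))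
  set V : ℝ := max U 1 with hV
  have hV1 : 1 ≤ V := le_max_right _ _
  have hW := WW_nonneg (w := w)
  have hVl := ell_nonneg (show 0 ≤ V by linarith)
  refine ⟨max (|ρ| + M - kv w a b) 0 + (WW w * (Real.exp (2 * V) + Real.exp V) + |ρ| * ell V),
    by positivity, fun u hu => ?_⟩
  have hm := le_max_left (|ρ| + M - kv w a b) 0
  have hm0 := le_max_right (|ρ| + M - kv w a b) 0
  have hn : 0 ≤ WW w * (Real.exp (2 * V) + Real.exp V) + |ρ| * ell V := by positivity
  rcases le_or_gt V u with h2 | h2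
  · obtain ⟨e1, e2, e3⟩ := hU u ((le_max_left _ _).trans h2)
    rw [log_QQ_exp e3, Real.log_exp] at e1
    have e4 : ρ * Real.log u ≤ ρ * ell u + |ρ| := by
      have e5 : |ρ * (Real.log u - ell u)| ≤ |ρ| := by
        rw [abs_mul]
        refine mul_le_of_le_one_right (abs_nonneg _) ?_
        rwa [abs_sub_comm]
      have e6 := (abs_le.1 e5).2
      linarith
    linarith
  · have h3 := (abs_le.1 ((near hF hr).comb_loc (w := w) u)).2
    have h5 : Real.exp u ≤ Real.exp V := Real.exp_le_exp.mpr h2.le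
    have h5' : Real.exp (2 * u) ≤ Real.exp (2 * V) := Real.exp_le_exp.mpr (by linarith)
    have h6 : WW w * (Real.exp (2 * u) + Real.exp u) ≤ WW w * (Real.exp (2 * V) + Real.exp V) :=
      mul_le_mul_of_nonneg_left (by linarith) hW
    have h7 : |ρ * ell u| ≤ |ρ| * ell V := by
      rw [abs_mul, abs_of_nonneg (show 0 ≤ ell u by linarith [ell_nonneg hu.le])]
      exact mul_le_mul_of_nonneg_left (ell_mono hu.le h2.le) (abs_nonneg _)
    have h8 := (abs_le.1 h7).1
    linarith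

/-- bounds by powers of the logarithm are subexponential -/
theorem kappa_sub {f : ℝ → ℝ} {ρ B : ℝ} (h : ∀ u, 0 < u → f u ≤ ρ * ell u + B) :
    ∀ ε > 0, ∀ᶠ u in atTop, f u ≤ Real.exp (ε * u) := by
  intro ε hε
  filter_upwards [sqrt_sub_exp (|ρ| + B) (2 * |ρ|) hε, eventually_ge_atTop 2] with u h1 h2
  have h3 := h u (by linarith)
  have h4 := ell_sqrt h2
  have h5 := ell_nonneg (show 0 ≤ u by linarith)
  have h6 : ρ * ell u ≤ |ρ| * (2 * √u + 1) :=
    (mul_le_mul_of_nonneg_right (le_abs_self ρ) (by linarith)).trans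
      (mul_le_mul_of_nonneg_left h4 (abs_nonneg _))
  linarith

theorem kappa_lap (ρ B : ℝ) : ∃ C : ℝ, ∀ᶠ x : ℝ in 𝓝[>] 0,
    x * lap (fun u => ρ * ell u + B * 1) x + ρ * Real.log x ≤ C := by
  have h2 : ∀ᶠ x : ℝ in 𝓝[>] 0,
      |x * lap ell x + Real.log x| ≤ |Real.eulerMascheroniConstant| + 1 := by
    have := ell_lap_limit.abs.eventually
      (gt_mem_nhds (show |-Real.eulerMascheroniConstant| < |Real.eulerMascheroniConstant| + 1 by
        rw [abs_neg]; linarith))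
    filter_upwards [this] with x hx using hx.le
  refine ⟨|ρ| * (|Real.eulerMascheroniConstant| + 1) + B, ?_⟩
  filter_upwards [h2, self_mem_nhdsWithin] with x e1 e2
  have hx : (0 : ℝ) < x := e2
  rw [lap_add ((ell_LInt hx).const_mul _) ((one_LInt hx).const_mul _), lap_const_mul, lap_const_mul,
    one_lap hx]
  have e3 : x * (ρ * lap ell x + B * (1 / x)) + ρ * Real.log x =
      ρ * (x * lap ell x + Real.log x) + B := by
    field_simp
    ring
  rw [e3]
  have e4 : |ρ * (x * lap ell x + Real.log x)| ≤ |ρ| * (|Real.eulerMascheroniConstant| + 1) := by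
    rw [abs_mul]
    exact mul_le_mul_of_nonneg_left e1 (abs_nonneg _)
  linarith [(abs_le.1 e4).2]

/-- the weighted order from an upper bound -/
theorem order_le_of (hF : ∀ i, Pool.Agent.W263.BSD.IsLSeries (a i) (b i) (F i))
    (hr : ∀ i, analyticOrderAt (F i) 1 = r i) (hconv : ∀ x > 0, LInt (comb w (av a b)) x)
    {ρ B : ℝ} (h : ∀ u, 0 < u → comb w (av a b) u ≤ ρ * ell u + B) : RR w r ≤ ρ := by
  obtain ⟨C, hC⟩ := kappa_lap ρ B
  exact (near hF hr).order_le (κ := fun u => ρ * ell u + B * 1) hconv (fun x hx =>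
    ((ell_LInt hx).const_mul _).add ((one_LInt hx).const_mul _)) (fun u hu => by
      rw [mul_one]; exact h u hu) hC

/-- convergence from a one-sided bound by a power of the logarithm -/
theorem conv_log (hF : ∀ i, Pool.Agent.W263.BSD.IsLSeries (a i) (b i) (F i))
    (hr : ∀ i, analyticOrderAt (F i) 1 = r i) (hsg : ∀ s : ℝ, 1 < s → 0 ≤ wt F w s)
    {ρ B : ℝ} (h : ∀ u, 0 < u → comb w (av a b) u ≤ ρ * ell u + B) :
    ∀ x > 0, LInt (comb w (av a b)) x :=
  (near hF hr).conv_upper le_rfl (sg_of hF le_rfl (by rwa [add_zero])) (kappa_sub h)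

theorem conv_log_both (hF : ∀ i, Pool.Agent.W263.BSD.IsLSeries (a i) (b i) (F i))
    (hr : ∀ i, analyticOrderAt (F i) 1 = r i)
    {ρ B ρ' B' : ℝ} (h : ∀ u, 0 < u → comb w (av a b) u ≤ ρ * ell u + B)
    (h' : ∀ u, 0 < u → -comb w (av a b) u ≤ ρ' * ell u + B') :
    ∀ x > 0, LInt (comb w (av a b)) x := by
  refine (near hF hr).conv_both le_rfl fun ε hε => ?_
  filter_upwards [kappa_sub h ε hε, kappa_sub h' ε hε] with u e1 e2
  rw [abs_le]
  constructor <;> linarith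

/-- the exact order from a two-sided bound -/
theorem order_eq_of (hF : ∀ i, Pool.Agent.W263.BSD.IsLSeries (a i) (b i) (F i))
    (hr : ∀ i, analyticOrderAt (F i) 1 = r i) {ρ M : ℝ} (h : ∀ᶠ x : ℝ in atTop,
      |Real.log (QQ w a b x) - ρ * Real.log (Real.log x)| ≤ M) :
    (∀ x > 0, LInt (comb w (av a b)) x) ∧ RR w r = ρ := by
  obtain ⟨B, -, hB⟩ := kappa_bound (w := w) (ρ := ρ) (M := M) hF hr (h.mono fun x hx => by
    linarith [(abs_le.1 hx).2])
  obtain ⟨B', -, hB'⟩ := kappa_bound (w := fun i => -w i) (ρ := -ρ) (M := M) hF hr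
    (h.mono fun x hx => by
      rw [QQ_neg]
      linarith [(abs_le.1 hx).1])
  have h1 := conv_log_both hF hr hB (fun u hu => by
    have := hB' u hu
    rwa [comb_neg] at this)
  refine ⟨h1, le_antisymm (order_le_of hF hr h1 hB) ?_⟩
  have h2 := order_le_of (w := fun i => -w i) hF hr (fun x hx => by
    have e : comb (fun i => -w i) (av a b) = fun u => -comb w (av a b) u :=
      funext fun u => comb_neg _ _ _
    rw [e]
    exact (h1 x hx).neg) hB'
  rw [RR_neg] at h2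
  linarith

/-! ### transfer of one-sided oscillation -/

theorem slow_tr (h : ∀ ε : ℝ, 0 < ε → ∃ δ : ℝ, 0 < δ ∧ ∀ᶠ x : ℝ in atTop, ∀ y, x ≤ y →
      y ≤ x ^ (1 + δ) → QQ w a b y ≤ (1 + ε) * QQ w a b x) :
    ∀ ε > 0, ∃ δ > 0, ∃ u0 : ℝ, ∀ u v, u0 ≤ u → u ≤ v → v ≤ (1 + δ) * u →
      comb w (av a b) v ≤ comb w (av a b) u + ε := by
  intro ε hε
  obtain ⟨δ, hδ, h1⟩ := h ε hε
  obtain ⟨X, hX⟩ := eventually_atTop.mp h1
  refine ⟨δ, hδ, max 4 (Real.log (max X 1)), fun u v h2 h3 h4 => ?_⟩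
  have hu4 : 4 ≤ u := (le_max_left _ _).trans h2
  have h5 : X ≤ Real.exp u := by
    have e1 : Real.log (max X 1) ≤ u := (le_max_right _ _).trans h2
    have e2 : 0 < max X 1 := lt_of_lt_of_le one_pos (le_max_right _ _)
    rw [Real.log_le_iff_le_exp e2] at e1
    exact (le_max_left _ _).trans e1
  have h6 := hX (Real.exp u) h5 (Real.exp v) (Real.exp_le_exp.mpr h3) (by
    rw [← Real.exp_mul]
    exact Real.exp_le_exp.mpr (by linarith))
  have h7 := Real.log_le_log (QQ_pos _) h6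
  rw [Real.log_mul (by positivity) (QQ_pos _).ne', log_QQ_exp hu4,
    log_QQ_exp (hu4.trans h3)] at h7
  have h8 := Real.log_le_sub_one_of_pos (show 0 < 1 + ε by linarith)
  linarith

theorem slow_tr_lower (h : ∀ ε : ℝ, 0 < ε → ∃ δ : ℝ, 0 < δ ∧ ∀ᶠ x : ℝ in atTop, ∀ y, x ≤ y →
      y ≤ x ^ (1 + δ) → QQ w a b x ≤ (1 + ε) * QQ w a b y) :
    ∀ ε > 0, ∃ δ > 0, ∃ u0 : ℝ, ∀ u v, u0 ≤ u → u ≤ v → v ≤ (1 + δ) * u →
      comb w (av a b) u - ε ≤ comb w (av a b) v := by
  intro ε hε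
  obtain ⟨δ, hδ, h1⟩ := h ε hε
  obtain ⟨X, hX⟩ := eventually_atTop.mp h1
  refine ⟨δ, hδ, max 4 (Real.log (max X 1)), fun u v h2 h3 h4 => ?_⟩
  have hu4 : 4 ≤ u := (le_max_left _ _).trans h2
  have h5 : X ≤ Real.exp u := by
    have e1 : Real.log (max X 1) ≤ u := (le_max_right _ _).trans h2
    have e2 : 0 < max X 1 := lt_of_lt_of_le one_pos (le_max_right _ _)
    rw [Real.log_le_iff_le_exp e2] at e1
    exact (le_max_left _ _).trans e1
  have h6 := hX (Real.exp u) h5 (Real.exp v) (Real.exp_le_exp.mpr h3) (by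
    rw [← Real.exp_mul]
    exact Real.exp_le_exp.mpr (by linarith))
  have h7 := Real.log_le_log (QQ_pos _) h6
  rw [Real.log_mul (by positivity) (QQ_pos _).ne', log_QQ_exp hu4,
    log_QQ_exp (hu4.trans h3)] at h7
  have h8 := Real.log_le_sub_one_of_pos (show 0 < 1 + ε by linarith)
  linarith

theorem dbl_tr {K : ℝ} (h : ∀ᶠ x : ℝ in atTop, ∀ y, x ≤ y → y ≤ x ^ 2 →
      QQ w a b y ≤ K * QQ w a b x) :
    ∃ K' u0 : ℝ, 0 ≤ K' ∧ 1 ≤ u0 ∧ ∀ u v, u0 ≤ u → u ≤ v → v ≤ 2 * u →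
      comb w (av a b) v ≤ comb w (av a b) u + K' := by
  obtain ⟨X, hX⟩ := eventually_atTop.mp h
  have hK1 : (1 : ℝ) ≤ max K 1 := le_max_right _ _
  refine ⟨Real.log (max K 1), max 4 (Real.log (max X 1)), Real.log_nonneg hK1,
    le_trans (by norm_num) (le_max_left _ _), fun u v h2 h3 h4 => ?_⟩
  have hu4 : 4 ≤ u := (le_max_left _ _).trans h2
  have h5 : X ≤ Real.exp u := by
    have e1 : Real.log (max X 1) ≤ u := (le_max_right _ _).trans h2
    have e2 : 0 < max X 1 := lt_of_lt_of_le one_pos (le_max_right _ _)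
    rw [Real.log_le_iff_le_exp e2] at e1
    exact (le_max_left _ _).trans e1
  have h6 := hX (Real.exp u) h5 (Real.exp v) (Real.exp_le_exp.mpr h3) (by
    rw [← Real.exp_nat_mul]
    exact Real.exp_le_exp.mpr (by push_cast; linarith))
  have h6' := h6.trans (mul_le_mul_of_nonneg_right (le_max_left K 1) (QQ_pos (w := w) (a := a)
    (b := b) (Real.exp u)).le)
  have h7 := Real.log_le_log (QQ_pos _) h6'
  rw [Real.log_mul (by positivity) (QQ_pos _).ne', log_QQ_exp hu4,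
    log_QQ_exp (hu4.trans h3)] at h7
  linarith

theorem dbl_tr_lower {K : ℝ} (h : ∀ᶠ x : ℝ in atTop, ∀ y, x ≤ y → y ≤ x ^ 2 →
      QQ w a b x ≤ K * QQ w a b y) :
    ∃ K' u0 : ℝ, 0 ≤ K' ∧ 1 ≤ u0 ∧ ∀ u v, u0 ≤ u → u ≤ v → v ≤ 2 * u →
      comb w (av a b) u - K' ≤ comb w (av a b) v := by
  obtain ⟨X, hX⟩ := eventually_atTop.mp h
  have hK1 : (1 : ℝ) ≤ max K 1 := le_max_right _ _
  refine ⟨Real.log (max K 1), max 4 (Real.log (max X 1)), Real.log_nonneg hK1,
    le_trans (by norm_num) (le_max_left _ _), fun u v h2 h3 h4 => ?_⟩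
  have hu4 : 4 ≤ u := (le_max_left _ _).trans h2
  have h5 : X ≤ Real.exp u := by
    have e1 : Real.log (max X 1) ≤ u := (le_max_right _ _).trans h2
    have e2 : 0 < max X 1 := lt_of_lt_of_le one_pos (le_max_right _ _)
    rw [Real.log_le_iff_le_exp e2] at e1
    exact (le_max_left _ _).trans e1
  have h6 := hX (Real.exp u) h5 (Real.exp v) (Real.exp_le_exp.mpr h3) (by
    rw [← Real.exp_nat_mul]
    exact Real.exp_le_exp.mpr (by push_cast; linarith))
  have h6' := h6.trans (mul_le_mul_of_nonneg_right (le_max_left K 1) (QQ_pos (w := w) (a := a)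
    (b := b) (Real.exp v)).le)
  have h7 := Real.log_le_log (QQ_pos _) h6'
  rw [Real.log_mul (by positivity) (QQ_pos _).ne', log_QQ_exp hu4,
    log_QQ_exp (hu4.trans h3)] at h7
  linarith

/-! ### the laws -/

theorem log_order {ρ c C : ℝ} (hc : 0 < c) (h : ∀ᶠ x : ℝ in atTop,
    c * (Real.log x) ^ ρ ≤ QQ w a b x ∧ QQ w a b x ≤ C * (Real.log x) ^ ρ) :
    ∃ M : ℝ, ∀ᶠ x : ℝ in atTop, |Real.log (QQ w a b x) - ρ * Real.log (Real.log x)| ≤ M := by
  refine ⟨|Real.log c| + |Real.log C|, ?_⟩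
  filter_upwards [h, Real.tendsto_log_atTop.eventually_gt_atTop 0] with x ⟨h1, h2⟩ h3
  have h4 : 0 < (Real.log x) ^ ρ := Real.rpow_pos_of_pos h3 _
  have hC : 0 < C := by
    have h5 : 0 < C * (Real.log x) ^ ρ := lt_of_lt_of_le (QQ_pos x) h2
    exact (mul_pos_iff_of_pos_right h4).1 h5
  have h5 := Real.log_le_log (mul_pos hc h4) h1
  have h6 := Real.log_le_log (QQ_pos x) h2
  rw [Real.log_mul hc.ne' h4.ne', Real.log_rpow h3] at h5
  rw [Real.log_mul hC.ne' h4.ne', Real.log_rpow h3] at h6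
  have h7 := neg_abs_le (Real.log c)
  have h8 := le_abs_self (Real.log C)
  have h9 := abs_nonneg (Real.log c)
  have h10 := abs_nonneg (Real.log C)
  rw [abs_le]
  constructor <;> linarith

theorem order_log {ρ M : ℝ}
    (h : ∀ᶠ x : ℝ in atTop, |Real.log (QQ w a b x) - ρ * Real.log (Real.log x)| ≤ M) :
    ∃ c C : ℝ, 0 < c ∧ ∀ᶠ x : ℝ in atTop,
      c * (Real.log x) ^ ρ ≤ QQ w a b x ∧ QQ w a b x ≤ C * (Real.log x) ^ ρ := by
  refine ⟨Real.exp (-M), Real.exp M, Real.exp_pos _, ?_⟩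
  filter_upwards [h, Real.tendsto_log_atTop.eventually_gt_atTop 0] with x h1 h3
  have h4 : 0 < (Real.log x) ^ ρ := Real.rpow_pos_of_pos h3 _
  obtain ⟨h5, h6⟩ := abs_le.1 h1
  constructor
  · rw [← Real.log_le_log_iff (mul_pos (Real.exp_pos _) h4) (QQ_pos x),
      Real.log_mul (Real.exp_pos _).ne' h4.ne', Real.log_exp, Real.log_rpow h3]
    linarith
  · rw [← Real.log_le_log_iff (QQ_pos x) (mul_pos (Real.exp_pos _) h4),
      Real.log_mul (Real.exp_pos _).ne' h4.ne', Real.log_exp, Real.log_rpow h3]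
    linarith

/-- bounds for the combination give bounds for the product -/
theorem log_of_comb {ρ M : ℝ} (h : ∀ u, 0 < u → |comb w (av a b) u - ρ * ell u| ≤ M) :
    ∃ M' : ℝ, ∀ᶠ x : ℝ in atTop, |Real.log (QQ w a b x) - ρ * Real.log (Real.log x)| ≤ M' := by
  refine ⟨M + |kv w a b| + |ρ|, ?_⟩
  filter_upwards [eventually_ge_atTop (Real.exp 4), Real.tendsto_log_atTop.eventually ell_close,
    Real.tendsto_log_atTop.eventually_gt_atTop 0] with x h1 h2 h3
  rw [log_QQ_eq h1]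
  have h4 := h (Real.log x) h3
  have h5 : |ρ * (ell (Real.log x) - Real.log (Real.log x))| ≤ |ρ| := by
    rw [abs_mul]
    exact mul_le_of_le_one_right (abs_nonneg _) h2
  have h6 := abs_le.1 h4
  have h7 := abs_le.1 h5
  have h8 := neg_abs_le (kv w a b)
  have h9 := le_abs_self (kv w a b)
  rw [abs_le]
  constructor <;> linarith [h6.1, h6.2, h7.1, h7.2]

theorem double_log {x y : ℝ} (hx : 1 < x) (h1 : x ≤ y) (h2 : y ≤ x ^ 2) :
    |Real.log (Real.log y) - Real.log (Real.log x)| ≤ Real.log 2 := by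
  have hx0 : 0 < Real.log x := Real.log_pos hx
  have hxy : Real.log x ≤ Real.log y := Real.log_le_log (by linarith) h1
  have hy : Real.log y ≤ 2 * Real.log x := by
    have := Real.log_le_log (by linarith) h2
    rwa [Real.log_pow] at this
  have h3 := Real.log_le_log hx0 hxy
  have h4 := Real.log_le_log (by linarith) hy
  rw [Real.log_mul two_ne_zero hx0.ne'] at h4
  rw [abs_le]
  constructor
  · linarith [Real.log_nonneg (show (1 : ℝ) ≤ 2 by norm_num)]
  · linarith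

/-- a two-sided order gives two-sided doubling -/
theorem dbl_of_order {ρ M : ℝ}
    (h : ∀ᶠ x : ℝ in atTop, |Real.log (QQ w a b x) - ρ * Real.log (Real.log x)| ≤ M) :
    ∃ K : ℝ, ∀ᶠ x : ℝ in atTop, ∀ y, x ≤ y → y ≤ x ^ 2 →
      QQ w a b y ≤ K * QQ w a b x ∧ QQ w a b x ≤ K * QQ w a b y := by
  obtain ⟨X, hX⟩ := eventually_atTop.1 h
  refine ⟨Real.exp (2 * M + |ρ| * Real.log 2), ?_⟩
  filter_upwards [eventually_ge_atTop X, eventually_gt_atTop 1] with x h1 h2 y h3 h4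
  have e1 := abs_le.1 (hX x h1)
  have e2 := abs_le.1 (hX y (h1.trans h3))
  have e3 : |ρ * (Real.log (Real.log y) - Real.log (Real.log x))| ≤ |ρ| * Real.log 2 := by
    rw [abs_mul]
    exact mul_le_mul_of_nonneg_left (double_log h2 h3 h4) (abs_nonneg _)
  have e4 := abs_le.1 e3
  constructor
  · rw [← Real.log_le_log_iff (QQ_pos y) (mul_pos (Real.exp_pos _) (QQ_pos x)),
      Real.log_mul (Real.exp_pos _).ne' (QQ_pos x).ne', Real.log_exp]
    linarith [e1.1, e1.2, e2.1, e2.2, e4.1, e4.2]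
  · rw [← Real.log_le_log_iff (QQ_pos x) (mul_pos (Real.exp_pos _) (QQ_pos y)),
      Real.log_mul (Real.exp_pos _).ne' (QQ_pos y).ne', Real.log_exp]
    linarith [e1.1, e1.2, e2.1, e2.2, e4.1, e4.2]

/-- a limit gives slow oscillation -/
theorem slow_of_lim {ρ K : ℝ}
    (h : Tendsto (fun x : ℝ => Real.log (QQ w a b x) - ρ * Real.log (Real.log x)) atTop (𝓝 K))
    {ε : ℝ} (hε : 0 < ε) : ∃ δ : ℝ, 0 < δ ∧ ∀ᶠ x : ℝ in atTop, ∀ y, x ≤ y → y ≤ x ^ (1 + δ) →
      QQ w a b y ≤ (1 + ε) * QQ w a b x ∧ QQ w a b x ≤ (1 + ε) * QQ w a b y := by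
  set η : ℝ := Real.log (1 + ε) / 3 with hη
  have hη0 : 0 < η := by
    have := Real.log_pos (show 1 < 1 + ε by linarith)
    positivity
  obtain ⟨X, hX⟩ := Metric.tendsto_atTop.mp h η hη0
  refine ⟨η / (|ρ| + 1), by positivity, ?_⟩
  filter_upwards [eventually_ge_atTop X, eventually_gt_atTop 1] with x h1 h2 y h3 h4
  have e1 := hX x h1
  have e2 := hX y (h1.trans h3)
  rw [Real.dist_eq] at e1 e2
  have hx0 : 0 < Real.log x := Real.log_pos h2
  have hxy : Real.log x ≤ Real.log y := Real.log_le_log (by linarith) h3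
  have hy : Real.log y ≤ (1 + η / (|ρ| + 1)) * Real.log x := by
    have := Real.log_le_log (by linarith) h4
    rwa [Real.log_rpow (by linarith)] at this
  have e3 := Real.log_le_log hx0 hxy
  have e4 : Real.log (Real.log y) ≤ Real.log (Real.log x) + η / (|ρ| + 1) := by
    have a1 := Real.log_le_log (by linarith) hy
    rw [Real.log_mul (by positivity) hx0.ne'] at a1
    have a2 := Real.log_le_sub_one_of_pos (show 0 < 1 + η / (|ρ| + 1) by positivity)
    linarith
  have e5 : |ρ * (Real.log (Real.log y) - Real.log (Real.log x))| ≤ η := by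
    rw [abs_mul, abs_of_nonneg (show 0 ≤ Real.log (Real.log y) - Real.log (Real.log x) by linarith)]
    calc |ρ| * (Real.log (Real.log y) - Real.log (Real.log x)) ≤ |ρ| * (η / (|ρ| + 1)) :=
          mul_le_mul_of_nonneg_left (by linarith) (abs_nonneg _)
      _ ≤ η := by
        rw [mul_div_assoc', div_le_iff₀ (by positivity)]
        nlinarith [abs_nonneg ρ]
  have a1 := abs_lt.1 e1
  have a2 := abs_lt.1 e2
  have a3 := abs_le.1 e5
  have a4 : Real.log (1 + ε) = 3 * η := by rw [hη]; ring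
  have h1ε : 0 < 1 + ε := by linarith
  constructor
  · rw [← Real.log_le_log_iff (QQ_pos y) (mul_pos h1ε (QQ_pos x)),
      Real.log_mul h1ε.ne' (QQ_pos x).ne', a4]
    linarith [a1.1, a1.2, a2.1, a2.2, a3.1, a3.2]
  · rw [← Real.log_le_log_iff (QQ_pos x) (mul_pos h1ε (QQ_pos y)),
      Real.log_mul h1ε.ne' (QQ_pos y).ne', a4]
    linarith [a1.1, a1.2, a2.1, a2.2, a3.1, a3.2]

theorem bd_of_lim {ρ K : ℝ}
    (h : Tendsto (fun x : ℝ => Real.log (QQ w a b x) - ρ * Real.log (Real.log x)) atTop (𝓝 K)) :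
    ∀ᶠ x : ℝ in atTop, |Real.log (QQ w a b x) - ρ * Real.log (Real.log x)| ≤ |K| + 1 := by
  filter_upwards [h.abs.eventually (gt_mem_nhds (show |K| < |K| + 1 by linarith))] with x hx
    using hx.le

end Pool.Agent.H21.RC
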