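import Pool.Agent.H21.RC.Laws

/-!
# The main laws for `∏ P_i(x)^(w_i)`
-/

set_option autoImplicit false

namespace Pool.Agent.H21.RC

open MeasureTheory Filter Topology Set
open Pool.Agent.W263.BSD

variable {ι : Type} [Fintype ι] {a b : ι → ℤ} {F : ι → ℂ → ℂ} {r : ι → ℕ} {w : ι → ℝ}

/-- the constants of the curves -/
noncomputable def TT (F : ι → ℂ → ℂ) (r : ι → ℕ) (i : ι) : ℝ :=
  √2 * (Real.exp (r i * Real.eulerMascheroniConstant) / leadAbs (F i) (r i))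

omit [Fintype ι] in
theorem TT_pos (hpos : ∀ i, 0 < leadAbs (F i) (r i)) (i : ι) : 0 < TT F r i := by
  have := hpos i
  unfold TT
  positivity

theorem prod_TT_pos (hpos : ∀ i, 0 < leadAbs (F i) (r i)) : 0 < ∏ i, TT F r i ^ w i :=
  Finset.prod_pos fun i _ => Real.rpow_pos_of_pos (TT_pos hpos i) _

theorem log_TT (hpos : ∀ i, 0 < leadAbs (F i) (r i)) :
    Real.log (∏ i, TT F r i ^ w i) =
      KK w r (cv a b F r) + kv w a b + ∑ i, w i * (Real.log 2 / 2) := by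
  rw [target hpos, Real.log_prod fun i _ => (Real.rpow_pos_of_pos (TT_pos hpos i) _).ne',
    ← Finset.sum_add_distrib]
  refine Finset.sum_congr rfl fun i _ => ?_
  have := hpos i
  rw [Real.log_rpow (TT_pos hpos i)]
  unfold TT
  rw [Real.log_mul (by positivity) (by positivity), Real.log_sqrt two_pos.le]
  ring

/-- convergence of the logarithm and of the quotient -/
theorem quot_lim {ρ C : ℝ} (hC : 0 < C)
    (h : Tendsto (fun x : ℝ => Real.log (QQ w a b x) - ρ * Real.log (Real.log x)) atTop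
      (𝓝 (Real.log C))) :
    Tendsto (fun x : ℝ => QQ w a b x / (Real.log x) ^ ρ) atTop (𝓝 C) := by
  have h1 := h.rexp
  rw [Real.exp_log hC] at h1
  refine h1.congr' ?_
  filter_upwards [Real.tendsto_log_atTop.eventually_gt_atTop 0] with x hx
  rw [Real.exp_sub, Real.exp_log (QQ_pos x), Real.rpow_def_of_pos hx, mul_comm ρ]

theorem lim_quot {ρ C : ℝ} (hC : C ≠ 0)
    (h : Tendsto (fun x : ℝ => QQ w a b x / (Real.log x) ^ ρ) atTop (𝓝 C)) :
    0 < C ∧ Tendsto (fun x : ℝ => Real.log (QQ w a b x) - ρ * Real.log (Real.log x)) atTop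
      (𝓝 (Real.log C)) := by
  have hC0 : 0 ≤ C := by
    refine ge_of_tendsto h ?_
    filter_upwards [Real.tendsto_log_atTop.eventually_gt_atTop 0] with x hx
    exact (div_pos (QQ_pos x) (Real.rpow_pos_of_pos hx _)).le
  refine ⟨lt_of_le_of_ne hC0 hC.symm, ?_⟩
  refine (h.log hC).congr' ?_
  filter_upwards [Real.tendsto_log_atTop.eventually_gt_atTop 0] with x hx
  rw [Real.log_div (QQ_pos x).ne' (Real.rpow_pos_of_pos hx _).ne', Real.log_rpow hx]

/-- **Asymptotic formulas.** -/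
theorem lead_law (hΔ : ∀ i, 4 * a i ^ 3 + 27 * b i ^ 2 ≠ 0)
    (hF : ∀ i, Pool.Agent.W263.BSD.IsLSeries (a i) (b i) (F i))
    (hr : ∀ i, analyticOrderAt (F i) 1 = r i)
    (hrs : ∀ i, Tendsto (rsSum (a i) (b i)) atTop (𝓝 0)) :
    List.TFAE [
      ∃ C ρ : ℝ, C ≠ 0 ∧ Tendsto (fun x : ℝ => QQ w a b x / (Real.log x) ^ ρ) atTop (𝓝 C),
      Tendsto (fun x : ℝ => QQ w a b x / (Real.log x) ^ RR w r) atTop (𝓝 (∏ i, TT F r i ^ w i)),
      (∀ s : ℝ, 1 < s → 0 ≤ wt F w s) ∧ ∀ ε : ℝ, 0 < ε → ∃ δ : ℝ, 0 < δ ∧ ∀ᶠ x : ℝ in atTop, ∀ y,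
        x ≤ y → y ≤ x ^ (1 + δ) → QQ w a b y ≤ (1 + ε) * QQ w a b x,
      (∀ s : ℝ, 1 < s → wt F w s ≤ 0) ∧ ∀ ε : ℝ, 0 < ε → ∃ δ : ℝ, 0 < δ ∧ ∀ᶠ x : ℝ in atTop, ∀ y,
        x ≤ y → y ≤ x ^ (1 + δ) → QQ w a b x ≤ (1 + ε) * QQ w a b y] := by
  have hpos : ∀ i, 0 < leadAbs (F i) (r i) := fun i => (lead_limit (hF i).1 (hr i)).1
  have hfin : Tendsto (ff w (av a b) (sv a b) r) atTop (𝓝 (KK w r (cv a b F r))) →
      Tendsto (fun x : ℝ => QQ w a b x / (Real.log x) ^ RR w r) atTop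
        (𝓝 (∏ i, TT F r i ^ w i)) := fun h => by
    refine quot_lim (prod_TT_pos hpos) ?_
    rw [log_TT (a := a) (b := b) hpos]
    exact log_lim hΔ hrs h
  have key : (∃ C ρ : ℝ, C ≠ 0 ∧ Tendsto (fun x : ℝ => QQ w a b x / (Real.log x) ^ ρ) atTop (𝓝 C)) →
      (∀ s : ℝ, 1 < s → wt F w s = 0) ∧ ∀ ε : ℝ, 0 < ε → ∃ δ : ℝ, 0 < δ ∧ ∀ᶠ x : ℝ in atTop, ∀ y,
        x ≤ y → y ≤ x ^ (1 + δ) → QQ w a b y ≤ (1 + ε) * QQ w a b x ∧
          QQ w a b x ≤ (1 + ε) * QQ w a b y := by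
    rintro ⟨C, ρ, hC, h⟩
    obtain ⟨-, h1⟩ := lim_quot hC h
    refine ⟨fun s hs => ?_, fun ε hε => slow_of_lim h1 hε⟩
    refine cancel_of hF hr le_rfl (order_eq_of hF hr (bd_of_lim h1)).1 s ?_
    rw [Complex.ofReal_re]
    linarith
  tfae_have 1 → 3 := by
    intro h
    obtain ⟨h1, h2⟩ := key h
    refine ⟨fun s hs => (h1 s hs).ge, fun ε hε => ?_⟩
    obtain ⟨δ, hδ, h3⟩ := h2 ε hε
    exact ⟨δ, hδ, h3.mono fun x hx y e1 e2 => (hx y e1 e2).1⟩
  tfae_have 1 → 4 := by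
    intro h
    obtain ⟨h1, h2⟩ := key h
    refine ⟨fun s hs => (h1 s hs).le, fun ε hε => ?_⟩
    obtain ⟨δ, hδ, h3⟩ := h2 ε hε
    exact ⟨δ, hδ, h3.mono fun x hx y e1 e2 => (hx y e1 e2).2⟩
  tfae_have 3 → 2 := fun h => hfin ((near hF hr).lead_upper (cor a b)
    (sg_of hF le_rfl (by simpa only [add_zero] using h.1)) (slow_tr h.2))
  tfae_have 4 → 2 := fun h => hfin ((near hF hr).lead_lower (cor a b) (sg_of' hF h.1)
    (slow_tr_lower h.2))
  tfae_have 2 → 1 := fun h => ⟨_, _, (prod_TT_pos hpos).ne', h⟩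
  tfae_finish

/-- **Orders of magnitude.** -/
theorem order_law (hF : ∀ i, Pool.Agent.W263.BSD.IsLSeries (a i) (b i) (F i))
    (hr : ∀ i, analyticOrderAt (F i) 1 = r i) :
    List.TFAE [
      ∃ ρ c C : ℝ, 0 < c ∧ ∀ᶠ x : ℝ in atTop,
        c * (Real.log x) ^ ρ ≤ QQ w a b x ∧ QQ w a b x ≤ C * (Real.log x) ^ ρ,
      ∃ c C : ℝ, 0 < c ∧ ∀ᶠ x : ℝ in atTop,
        c * (Real.log x) ^ RR w r ≤ QQ w a b x ∧ QQ w a b x ≤ C * (Real.log x) ^ RR w r,
      (∀ s : ℝ, 1 < s → 0 ≤ wt F w s) ∧ ∃ K : ℝ, ∀ᶠ x : ℝ in atTop, ∀ y, x ≤ y → y ≤ x ^ 2 →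
        QQ w a b y ≤ K * QQ w a b x,
      (∀ s : ℝ, 1 < s → wt F w s ≤ 0) ∧ ∃ K : ℝ, ∀ᶠ x : ℝ in atTop, ∀ y, x ≤ y → y ≤ x ^ 2 →
        QQ w a b x ≤ K * QQ w a b y] := by
  have key : (∃ ρ c C : ℝ, 0 < c ∧ ∀ᶠ x : ℝ in atTop,
        c * (Real.log x) ^ ρ ≤ QQ w a b x ∧ QQ w a b x ≤ C * (Real.log x) ^ ρ) →
      (∀ s : ℝ, 1 < s → wt F w s = 0) ∧ ∃ K : ℝ, ∀ᶠ x : ℝ in atTop, ∀ y, x ≤ y → y ≤ x ^ 2 →
        QQ w a b y ≤ K * QQ w a b x ∧ QQ w a b x ≤ K * QQ w a b y := by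
    rintro ⟨ρ, c, C, hc, h⟩
    obtain ⟨M, hM⟩ := log_order hc h
    refine ⟨fun s hs => ?_, dbl_of_order hM⟩
    refine cancel_of hF hr le_rfl (order_eq_of hF hr hM).1 s ?_
    rw [Complex.ofReal_re]
    linarith
  tfae_have 2 → 1 := fun ⟨c, C, h⟩ => ⟨_, c, C, h⟩
  tfae_have 1 → 3 := by
    intro h
    obtain ⟨h1, K, h2⟩ := key h
    exact ⟨fun s hs => (h1 s hs).ge, K, h2.mono fun x hx y e1 e2 => (hx y e1 e2).1⟩
  tfae_have 1 → 4 := by
    intro h
    obtain ⟨h1, K, h2⟩ := key h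
    exact ⟨fun s hs => (h1 s hs).le, K, h2.mono fun x hx y e1 e2 => (hx y e1 e2).2⟩
  tfae_have 3 → 2 := by
    rintro ⟨h1, K, h2⟩
    obtain ⟨K', u0, hK', hu0, h3⟩ := dbl_tr h2
    obtain ⟨-, M, hM⟩ := (near hF hr).order_upper
      (sg_of hF le_rfl (by simpa only [add_zero] using h1)) hK' hu0 h3
    obtain ⟨M', hM'⟩ := log_of_comb hM
    exact order_log hM'
  tfae_have 4 → 2 := by
    rintro ⟨h1, K, h2⟩
    obtain ⟨K', u0, hK', hu0, h3⟩ := dbl_tr_lower h2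
    obtain ⟨-, M, hM⟩ := (near hF hr).order_lower (sg_of' hF h1) hK' hu0 h3
    obtain ⟨M', hM'⟩ := log_of_comb hM
    exact order_log hM'
  tfae_finish

/-- uniqueness of the exponent -/
theorem unique_law0 (hF : ∀ i, Pool.Agent.W263.BSD.IsLSeries (a i) (b i) (F i))
    (hr : ∀ i, analyticOrderAt (F i) 1 = r i) {C ρ : ℝ} (hC : C ≠ 0)
    (h : Tendsto (fun x : ℝ => QQ w a b x / (Real.log x) ^ ρ) atTop (𝓝 C)) :
    ρ = RR w r ∧ ∀ s : ℂ, 1 < s.re → wt F w s = 0 := by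
  obtain ⟨-, h1⟩ := lim_quot hC h
  obtain ⟨h2, h3⟩ := order_eq_of hF hr (bd_of_lim h1)
  exact ⟨h3.symm, fun s hs => cancel_of hF hr le_rfl h2 s (by linarith)⟩

/-- uniqueness of the exponent and of the constant -/
theorem unique_law (hΔ : ∀ i, 4 * a i ^ 3 + 27 * b i ^ 2 ≠ 0)
    (hF : ∀ i, Pool.Agent.W263.BSD.IsLSeries (a i) (b i) (F i))
    (hr : ∀ i, analyticOrderAt (F i) 1 = r i)
    (hrs : ∀ i, Tendsto (rsSum (a i) (b i)) atTop (𝓝 0)) {C ρ : ℝ} (hC : C ≠ 0)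
    (h : Tendsto (fun x : ℝ => QQ w a b x / (Real.log x) ^ ρ) atTop (𝓝 C)) :
    ρ = RR w r ∧ C = ∏ i, TT F r i ^ w i ∧ ∀ s : ℂ, 1 < s.re → wt F w s = 0 := by
  obtain ⟨-, h1⟩ := lim_quot hC h
  obtain ⟨h2, h3⟩ := order_eq_of hF hr (bd_of_lim h1)
  have key : (∃ C ρ : ℝ, C ≠ 0 ∧ Tendsto (fun x : ℝ => QQ w a b x / (Real.log x) ^ ρ) atTop
      (𝓝 C)) → Tendsto (fun x : ℝ => QQ w a b x / (Real.log x) ^ RR w r) atTop
        (𝓝 (∏ i, TT F r i ^ w i)) := ((lead_law (w := w) hΔ hF hr hrs).out 0 1).1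
  have h4 := key ⟨C, ρ, hC, h⟩
  refine ⟨h3.symm, ?_, fun s hs => cancel_of hF hr le_rfl h2 s (by linarith)⟩
  rw [h3] at h4
  exact tendsto_nhds_unique h h4

theorem upper_pos {ρ C : ℝ} (h : ∀ᶠ x : ℝ in atTop, QQ w a b x ≤ C * (Real.log x) ^ ρ) :
    0 < C ∧ ∀ᶠ x : ℝ in atTop, Real.log (QQ w a b x) ≤ ρ * Real.log (Real.log x) + Real.log C := by
  have hC : 0 < C := by
    obtain ⟨x, h1, h2⟩ := (h.and (Real.tendsto_log_atTop.eventually_gt_atTop 0)).exists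
    have h4 : 0 < (Real.log x) ^ ρ := Real.rpow_pos_of_pos h2 _
    have h5 : 0 < C * (Real.log x) ^ ρ := lt_of_lt_of_le (QQ_pos x) h1
    exact (mul_pos_iff_of_pos_right h4).1 h5
  refine ⟨hC, ?_⟩
  filter_upwards [h, Real.tendsto_log_atTop.eventually_gt_atTop 0] with x h1 h2
  have h4 : 0 < (Real.log x) ^ ρ := Real.rpow_pos_of_pos h2 _
  have h5 := Real.log_le_log (QQ_pos x) h1
  rw [Real.log_mul hC.ne' h4.ne', Real.log_rpow h2] at h5
  linarith

/-- **One-sided bounds,** without the constants. -/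
theorem upper_law0 (hF : ∀ i, Pool.Agent.W263.BSD.IsLSeries (a i) (b i) (F i))
    (hr : ∀ i, analyticOrderAt (F i) 1 = r i)
    (hsg : ∀ s : ℝ, 1 < s → 0 ≤ wt F w s) {ρ C : ℝ}
    (h : ∀ᶠ x : ℝ in atTop, QQ w a b x ≤ C * (Real.log x) ^ ρ) :
    (∀ s : ℂ, 1 < s.re → wt F w s = 0) ∧ RR w r ≤ ρ := by
  obtain ⟨-, hlog⟩ := upper_pos h
  obtain ⟨B, hB0, hB⟩ := kappa_bound hF hr hlog
  have hconv := conv_log hF hr hsg hB
  exact ⟨fun s hs => cancel_of hF hr le_rfl hconv s (by linarith), order_le_of hF hr hconv hB⟩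

/-- **One-sided bounds.** -/
theorem upper_law (hΔ : ∀ i, 4 * a i ^ 3 + 27 * b i ^ 2 ≠ 0)
    (hF : ∀ i, Pool.Agent.W263.BSD.IsLSeries (a i) (b i) (F i))
    (hr : ∀ i, analyticOrderAt (F i) 1 = r i)
    (hrs : ∀ i, Tendsto (rsSum (a i) (b i)) atTop (𝓝 0))
    (hsg : ∀ s : ℝ, 1 < s → 0 ≤ wt F w s) {ρ C : ℝ}
    (h : ∀ᶠ x : ℝ in atTop, QQ w a b x ≤ C * (Real.log x) ^ ρ) :
    (∀ s : ℂ, 1 < s.re → wt F w s = 0) ∧ RR w r ≤ ρ ∧
      (RR w r = ρ → ∏ i, TT F r i ^ w i ≤ C) := by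
  have hpos : ∀ i, 0 < leadAbs (F i) (r i) := fun i => (lead_limit (hF i).1 (hr i)).1
  have hC : 0 < C := by
    obtain ⟨x, h1, h2⟩ := (h.and (Real.tendsto_log_atTop.eventually_gt_atTop 0)).exists
    have h4 : 0 < (Real.log x) ^ ρ := Real.rpow_pos_of_pos h2 _
    have h5 : 0 < C * (Real.log x) ^ ρ := lt_of_lt_of_le (QQ_pos x) h1
    exact (mul_pos_iff_of_pos_right h4).1 h5
  have hlog : ∀ᶠ x : ℝ in atTop, Real.log (QQ w a b x) ≤ ρ * Real.log (Real.log x) + Real.log C := by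
    filter_upwards [h, Real.tendsto_log_atTop.eventually_gt_atTop 0] with x h1 h2
    have h4 : 0 < (Real.log x) ^ ρ := Real.rpow_pos_of_pos h2 _
    have h5 := Real.log_le_log (QQ_pos x) h1
    rw [Real.log_mul hC.ne' h4.ne', Real.log_rpow h2] at h5
    linarith
  obtain ⟨B, hB0, hB⟩ := kappa_bound hF hr hlog
  have hconv := conv_log hF hr hsg hB
  refine ⟨fun s hs => cancel_of hF hr le_rfl hconv s (by linarith), order_le_of hF hr hconv hB,
    fun hR => ?_⟩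
  -- the sharp constant
  have hab := (near hF hr).abel_limit (w := w) (cor a b) hconv
  have hsv := corr_lim (w := w) hΔ hrs
  have hkey : ∀ η > 0, KK w r (cv a b F r) ≤
      Real.log C - kv w a b - ∑ i, w i * (Real.log 2 / 2) + η := by
    intro η hη
    have e1 : Tendsto (fun u : ℝ => Real.log C - kv w a b - comb w (sv a b) u -
        RR w r * (ell u - Real.log u)) atTop
        (𝓝 (Real.log C - kv w a b - ∑ i, w i * (Real.log 2 / 2) - RR w r * 0)) :=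
      (hsv.const_sub _).sub (ell_sub_log.const_mul _)
    rw [mul_zero, sub_zero] at e1
    obtain ⟨U, hU⟩ := eventually_atTop.1 ((e1.eventually (gt_mem_nhds (show
      Real.log C - kv w a b - ∑ i, w i * (Real.log 2 / 2) <
        Real.log C - kv w a b - ∑ i, w i * (Real.log 2 / 2) + η by linarith))).and
      ((Real.tendsto_exp_atTop.eventually hlog).and (eventually_ge_atTop 4)))
    obtain ⟨M', hM'⟩ := comb_sc_bd (w := w) (cor a b)
    have hWn := WW_nonneg (w := w)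
    have hl := ell_nonneg (show 0 ≤ max U 0 from le_max_right _ _)
    have hV0 : 0 ≤ max U 0 := le_max_right _ _
    refine abel_le (f := ff w (av a b) (sv a b) r) (fun x hx => ff_LInt (cor a b) hconv hx)
      (U := max U 0) (K := WW w * (Real.exp (2 * max U 0) + Real.exp (max U 0)) + |M'| +
        |RR w r| * ell (max U 0)) hV0 (by positivity) hab (fun u hu => ?_) (fun u hu hu' => ?_)
    · obtain ⟨a1, a2, a3⟩ := hU u ((le_max_left _ _).trans hu.le)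
      rw [log_QQ_exp a3, Real.log_exp, ← hR] at a2
      unfold ff
      linarith
    · have h3 := (abs_le.1 ((near hF hr).comb_loc (w := w) u)).2
      have h5 : Real.exp u ≤ Real.exp (max U 0) := Real.exp_le_exp.mpr hu'
      have h5' : Real.exp (2 * u) ≤ Real.exp (2 * max U 0) := Real.exp_le_exp.mpr (by linarith)
      have h6 : WW w * (Real.exp (2 * u) + Real.exp u) ≤
          WW w * (Real.exp (2 * max U 0) + Real.exp (max U 0)) :=
        mul_le_mul_of_nonneg_left (by linarith) hWn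
      have h7 : |RR w r * ell u| ≤ |RR w r| * ell (max U 0) := by
        rw [abs_mul, abs_of_nonneg (show 0 ≤ ell u by linarith [ell_nonneg hu.le])]
        exact mul_le_mul_of_nonneg_left (ell_mono hu.le hu') (abs_nonneg _)
      have h8 := (abs_le.1 h7).1
      have h9 := (abs_le.1 (hM' u hu)).1
      have h10 := le_abs_self M'
      unfold ff
      linarith
  have h9 : KK w r (cv a b F r) ≤ Real.log C - kv w a b - ∑ i, w i * (Real.log 2 / 2) :=
    le_of_forall_pos_le_add hkey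
  rw [← Real.log_le_log_iff (prod_TT_pos hpos) hC, log_TT (a := a) (b := b) hpos]
  linarith

/-- **Linearly independent weights.** -/
theorem indep_law (hF : ∀ i, Pool.Agent.W263.BSD.IsLSeries (a i) (b i) (F i))
    (hr : ∀ i, analyticOrderAt (F i) 1 = r i) (hw : LinearIndependent ℚ w) (s : ℂ) :
    wt F w s = 0 ↔ ∀ i, F i s ≠ 0 := by
  have han : ∀ i, AnalyticAt ℂ (F i) s := fun i => (hF i).1.analyticAt s
  have htop : ∀ i, analyticOrderAt (F i) s ≠ ⊤ := by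
    intro i h
    rw [analyticOrderAt_eq_top] at h
    have h1 : AnalyticOnNhd ℂ (F i) univ := fun z _ => (hF i).1.analyticAt z
    have h2 := h1.eqOn_of_preconnected_of_eventuallyEq (analyticOnNhd_const (v := (0 : ℂ)))
      isPreconnected_univ (mem_univ s) h
    have h3 : analyticOrderAt (F i) 1 = ⊤ := by
      rw [analyticOrderAt_eq_top]
      exact Eventually.of_forall fun z => h2 (mem_univ z)
    rw [hr i] at h3
    exact ENat.natCast_ne_top _ h3
  have hiff : ∀ i, F i s ≠ 0 ↔ analyticOrderNatAt (F i) s = 0 := by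
    intro i
    rw [← (han i).analyticOrderAt_eq_zero]
    unfold analyticOrderNatAt
    rw [ENat.toNat_eq_zero]
    constructor
    · exact Or.inl
    · rintro (h | h)
      · exact h
      · exact absurd h (htop i)
  constructor
  · intro h i
    rw [hiff i]
    have h1 := Fintype.linearIndependent_iff.1 hw (fun i => (analyticOrderNatAt (F i) s : ℚ)) (by
      unfold wt at h
      rw [← h]
      refine Finset.sum_congr rfl fun i _ => ?_
      rw [Rat.smul_def]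
      push_cast
      ring) i
    exact_mod_cast h1
  · intro h
    unfold wt
    refine Finset.sum_eq_zero fun i _ => ?_
    rw [(hiff i).1 (h i)]
    simp

/-- the weighted order determines the orders -/
theorem indep_ranks (hw : LinearIndependent ℚ w) {r' : ι → ℕ} (h : RR w r = RR w r') : r = r' := by
  have h1 := Fintype.linearIndependent_iff.1 hw (fun i => (r i : ℚ) - r' i) (by
    unfold RR at h
    rw [← sub_eq_zero, ← Finset.sum_sub_distrib] at h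
    rw [← h]
    refine Finset.sum_congr rfl fun i _ => ?_
    rw [Rat.smul_def]
    push_cast
    ring)
  funext i
  have h2 := h1 i
  rw [sub_eq_zero] at h2
  exact_mod_cast h2

end Pool.Agent.H21.RC
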