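import Pool.Agent.H21.RC.Core
import Pool.Agent.H21.L.R_seed8.W263.BSD.Lead8

/-!
# Behaviour near the centre, exact orders and limits for linear combinations
-/

set_option autoImplicit false

namespace Pool.Agent.H21.RC

open MeasureTheory Filter Topology Set
open Pool.Agent.W263.BSD (LInt lap lapC lapC_ofReal lap_sub lap_add lap_const_mul ell ell_LInt
  ell_meas ell_nonneg ell_mono ell_double ell_slow ell_sqrt ell_lap_limit ex ex_meas ex_LInt
  sqrt_sub_exp slow_of_doubling bounded_of_slow abel_all abel_le tauber_limit doubling_of_slow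
  lap_mono lap_neg' one_LInt one_lap log_le_ell ell_le)

variable {ι : Type} [Fintype ι]

/-- the data near the centre -/
structure Near (a : ι → ℝ → ℝ) (Φ G : ι → ℂ → ℂ) (c0 : ℝ) (r : ι → ℕ) (c : ι → ℝ) : Prop where
  F : Fam a Φ G c0
  hloc : ∀ i u, |a i u| ≤ Real.exp (2 * u) + Real.exp u
  Gb : ∀ i, ∃ C : ℝ, ∀ᶠ x : ℝ in 𝓝[>] 0, |(G i x).re| ≤ C
  cpos : ∀ i, 0 < c i
  lim : ∀ i, Tendsto (fun x : ℝ => ‖Φ i x‖ / x ^ r i) (𝓝[>] 0) (𝓝 (c i))

variable {a : ι → ℝ → ℝ} {Φ G : ι → ℂ → ℂ} {c0 : ℝ} {r : ι → ℕ} {c : ι → ℝ} {w : ι → ℝ}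

/-- the weighted order -/
noncomputable def RR (w : ι → ℝ) (r : ι → ℕ) : ℝ := ∑ i, w i * r i

/-- total weight -/
noncomputable def WW (w : ι → ℝ) : ℝ := ∑ i, |w i|

theorem WW_nonneg : 0 ≤ WW w := Finset.sum_nonneg fun _ _ => abs_nonneg _

theorem comb_neg (w : ι → ℝ) (a : ι → ℝ → ℝ) (u : ℝ) :
    comb (fun i => -w i) a u = -comb w a u := by
  unfold comb
  rw [← Finset.sum_neg_distrib]
  exact Finset.sum_congr rfl fun i _ => by ring

theorem mult_neg (w : ι → ℝ) (Φ : ι → ℂ → ℂ) (z : ℂ) :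
    mult (fun i => -w i) Φ z = -mult w Φ z := by
  unfold mult
  rw [← Finset.sum_neg_distrib]
  exact Finset.sum_congr rfl fun i _ => by ring

theorem RR_neg (w : ι → ℝ) (r : ι → ℕ) : RR (fun i => -w i) r = -RR w r := by
  unfold RR
  rw [← Finset.sum_neg_distrib]
  exact Finset.sum_congr rfl fun i _ => by ring

theorem Near.comb_loc (H : Near a Φ G c0 r c) (u : ℝ) :
    |comb w a u| ≤ WW w * (Real.exp (2 * u) + Real.exp u) := by
  unfold comb WW
  rw [Finset.sum_mul]
  refine (Finset.abs_sum_le_sum_abs _ _).trans (Finset.sum_le_sum fun i _ => ?_)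
  rw [abs_mul]
  exact mul_le_mul_of_nonneg_left (H.hloc i u) (abs_nonneg _)

/-- one-sided subexponential bounds imply convergence -/
theorem Near.conv_upper (H : Near a Φ G c0 r c) {w0 : ℝ} (hw0 : 0 ≤ w0)
    (hsg : ∀ x : ℝ, w0 < x → 0 ≤ mult w Φ x)
    (h : ∀ ε > w0, ∀ᶠ u in atTop, comb w a u ≤ Real.exp (ε * u)) :
    ∀ x > w0, LInt (comb w a) x := by
  intro x hx
  obtain ⟨U, hU⟩ := eventually_atTop.mp (h ((w0 + x) / 2) (by linarith))
  set V : ℝ := max U 1 with hV
  set K : ℝ := WW w * (Real.exp (2 * V) + Real.exp V) with hK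
  have hK0 : 0 ≤ K := mul_nonneg WW_nonneg (by positivity)
  set κ : ℝ → ℝ := fun u => ex ((w0 + x) / 2) u + K * ex 0 u with hκ
  have hκm : Measurable κ := (ex_meas _).add ((ex_meas 0).const_mul _)
  have hκi : ∀ x' > (w0 + x) / 2, LInt κ x' := fun x' hx' =>
    (ex_LInt hx').add ((ex_LInt (by linarith)).const_mul _)
  refine H.F.conv (w0 := (w0 + x) / 2) (by linarith) hκm hκi (Or.inl rfl) (fun u hu => ?_)
    (fun y hy => ?_) x (by linarith)
  · rw [one_mul, hκ]
    simp only [ex, zero_mul, Real.exp_zero, mul_one]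
    rcases le_or_gt V u with h2 | h2
    · have h3 := hU u ((le_max_left _ _).trans h2)
      linarith
    · have h3 := (abs_le.mp (H.comb_loc (w := w) u)).2
      have h5 : Real.exp u ≤ Real.exp V := Real.exp_le_exp.mpr h2.le
      have h5' : Real.exp (2 * u) ≤ Real.exp (2 * V) := Real.exp_le_exp.mpr (by linarith)
      have h6 : WW w * (Real.exp (2 * u) + Real.exp u) ≤ K :=
        mul_le_mul_of_nonneg_left (by linarith) WW_nonneg
      have := Real.exp_pos ((w0 + x) / 2 * u)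
      linarith
  · rw [one_mul]
    exact hsg y (by linarith)

/-- two-sided subexponential bounds imply convergence without any condition on zeros -/
theorem Near.conv_both (H : Near a Φ G c0 r c) {w0 : ℝ} (hw0 : 0 ≤ w0)
    (h : ∀ ε > w0, ∀ᶠ u in atTop, |comb w a u| ≤ Real.exp (ε * u)) :
    ∀ x > w0, LInt (comb w a) x := by
  intro x hx
  obtain ⟨U, hU⟩ := eventually_atTop.mp (h ((w0 + x) / 2) (by linarith))
  set V : ℝ := max U 1 with hV
  set K : ℝ := WW w * (Real.exp (2 * V) + Real.exp V) with hK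
  have hK0 : 0 ≤ K := mul_nonneg WW_nonneg (by positivity)
  have hκi : LInt (fun u => ex ((w0 + x) / 2) u + K * ex 0 u) x :=
    (ex_LInt (by linarith)).add ((ex_LInt (by linarith)).const_mul _)
  refine Pool.Agent.W263.BSD.LInt.of_bound (comb_meas H.F) hκi fun u hu => ?_
  simp only [ex, zero_mul, Real.exp_zero, mul_one]
  rcases le_or_gt V u with h2 | h2
  · have h3 := hU u ((le_max_left _ _).trans h2)
    linarith
  · have h3 := H.comb_loc (w := w) u
    have h5 : Real.exp u ≤ Real.exp V := Real.exp_le_exp.mpr h2.le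
    have h5' : Real.exp (2 * u) ≤ Real.exp (2 * V) := Real.exp_le_exp.mpr (by linarith)
    have h6 : WW w * (Real.exp (2 * u) + Real.exp u) ≤ K :=
      mul_le_mul_of_nonneg_left (by linarith) WW_nonneg
    have := Real.exp_pos ((w0 + x) / 2 * u)
    linarith

/-- no zeros near the centre -/
theorem Near.ne_near (H : Near a Φ G c0 r c) : ∀ᶠ x : ℝ in 𝓝[>] 0, ∀ i, Φ i x ≠ 0 := by
  rw [eventually_all]
  intro i
  filter_upwards [(H.lim i).eventually_ne (H.cpos i).ne'] with x hx h0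
  rw [h0, norm_zero, zero_div] at hx
  exact hx rfl

/-- the sum of the logarithms near the centre -/
theorem Near.log_sum (H : Near a Φ G c0 r c) :
    Tendsto (fun x : ℝ => ∑ i, w i * Real.log ‖Φ i x‖ - RR w r * Real.log x) (𝓝[>] 0)
      (𝓝 (∑ i, w i * Real.log (c i))) := by
  have h1 : Tendsto (fun x : ℝ => ∑ i, w i * Real.log (‖Φ i x‖ / x ^ r i)) (𝓝[>] 0)
      (𝓝 (∑ i, w i * Real.log (c i))) :=
    tendsto_finsetSum _ fun i _ => ((H.lim i).log (H.cpos i).ne').const_mul _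
  refine h1.congr' ?_
  filter_upwards [H.ne_near, self_mem_nhdsWithin] with x h2 h3
  have hx : (0 : ℝ) < x := h3
  unfold RR
  rw [Finset.sum_mul, ← Finset.sum_sub_distrib]
  refine Finset.sum_congr rfl fun i _ => ?_
  rw [Real.log_div (norm_ne_zero_iff.2 (h2 i)) (pow_pos hx _).ne', Real.log_pow]
  ring

/-- the transform near the centre -/
theorem Near.lap_near (H : Near a Φ G c0 r c) (hconv : ∀ x > 0, LInt (comb w a) x) :
    ∀ᶠ x : ℝ in 𝓝[>] 0, x * lap (comb w a) x =
      ∑ i, w i * (G i x).re - ∑ i, w i * Real.log ‖Φ i x‖ := by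
  filter_upwards [H.ne_near, self_mem_nhdsWithin] with x h2 h3
  exact H.F.lap_re le_rfl hconv h3 h2

theorem Near.G_bound (H : Near a Φ G c0 r c) :
    ∃ C : ℝ, ∀ᶠ x : ℝ in 𝓝[>] 0, |∑ i, w i * (G i x).re| ≤ C := by
  choose C hC using H.Gb
  refine ⟨∑ i, |w i| * C i, ?_⟩
  filter_upwards [eventually_all.2 hC] with x hx
  refine (Finset.abs_sum_le_sum_abs _ _).trans (Finset.sum_le_sum fun i _ => ?_)
  rw [abs_mul]
  exact mul_le_mul_of_nonneg_left (hx i) (abs_nonneg _)

/-- the transform of the combination minus the logarithm is bounded near the centre -/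
theorem Near.abel_near (H : Near a Φ G c0 r c) (hconv : ∀ x > 0, LInt (comb w a) x) :
    ∃ C : ℝ, ∀ᶠ x : ℝ in 𝓝[>] 0, |x * lap (fun u => comb w a u - RR w r * ell u) x| ≤ C := by
  obtain ⟨C, hC⟩ := H.G_bound (w := w)
  set L := ∑ i, w i * Real.log (c i) with hL
  have h1 : ∀ᶠ x : ℝ in 𝓝[>] 0,
      |∑ i, w i * Real.log ‖Φ i x‖ - RR w r * Real.log x| ≤ |L| + 1 := by
    have := (H.log_sum (w := w)).abs.eventually (gt_mem_nhds (show |L| < |L| + 1 by linarith))
    filter_upwards [this] with x hx using hx.le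
  have h2 : ∀ᶠ x : ℝ in 𝓝[>] 0,
      |x * lap ell x + Real.log x| ≤ |Real.eulerMascheroniConstant| + 1 := by
    have := ell_lap_limit.abs.eventually
      (gt_mem_nhds (show |-Real.eulerMascheroniConstant| < |Real.eulerMascheroniConstant| + 1 by
        rw [abs_neg]; linarith))
    filter_upwards [this] with x hx using hx.le
  refine ⟨C + (|L| + 1) + |RR w r| * (|Real.eulerMascheroniConstant| + 1), ?_⟩
  filter_upwards [hC, h1, h2, H.lap_near hconv, self_mem_nhdsWithin] with x e1 e2 e3 e4 e5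
  have hx : (0 : ℝ) < x := e5
  rw [lap_sub (hconv x hx) ((ell_LInt hx).const_mul _), lap_const_mul]
  have e6 : x * (lap (comb w a) x - RR w r * lap ell x) =
      (∑ i, w i * (G i x).re - (∑ i, w i * Real.log ‖Φ i x‖ - RR w r * Real.log x)) -
        RR w r * (x * lap ell x + Real.log x) := by
    rw [mul_sub, e4]
    ring
  rw [e6]
  refine (abs_sub _ _).trans (add_le_add ((abs_sub _ _).trans (add_le_add e1 e2)) ?_)
  rw [abs_mul]
  exact mul_le_mul_of_nonneg_left e3 (abs_nonneg _)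

theorem ell_abs_double {u v : ℝ} (hu : 0 < u) (h1 : u ≤ v) (h2 : v ≤ 2 * u) (R : ℝ) :
    |R * ell v - R * ell u| ≤ |R| * Real.log 2 := by
  rw [← mul_sub, abs_mul]
  refine mul_le_mul_of_nonneg_left ?_ (abs_nonneg _)
  have e1 := ell_double hu h2 (by linarith)
  have e2 := ell_mono hu.le h1
  rw [abs_of_nonneg (by linarith)]
  linarith

/-- **Upper doubling implies the exact order.** -/
theorem Near.order_upper (H : Near a Φ G c0 r c) (hsg : ∀ x : ℝ, 0 < x → 0 ≤ mult w Φ x)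
    {K u0 : ℝ} (hK : 0 ≤ K) (hu0 : 1 ≤ u0)
    (h : ∀ u v, u0 ≤ u → u ≤ v → v ≤ 2 * u → comb w a v ≤ comb w a u + K) :
    (∀ x > 0, LInt (comb w a) x) ∧ ∃ M : ℝ, ∀ u, 0 < u → |comb w a u - RR w r * ell u| ≤ M := by
  have hu0' : 0 < u0 := by linarith
  have hs := slow_of_doubling hK hu0' h
  have hconv : ∀ x > 0, LInt (comb w a) x := by
    refine H.conv_upper le_rfl hsg fun ε hε => ?_
    filter_upwards [sqrt_sub_exp (comb w a u0) (3 * K * (1 / √u0)) hε, eventually_ge_atTop u0]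
      with u h1 h2
    refine le_trans (hs u0 u le_rfl h2) (le_trans (le_of_eq ?_) h1)
    rw [Real.sqrt_div' _ hu0'.le]
    ring
  refine ⟨hconv, ?_⟩
  have hfi : ∀ x > 0, LInt (fun u => comb w a u - RR w r * ell u) x := fun x hx =>
    (hconv x hx).sub ((ell_LInt hx).const_mul _)
  have hfm : Measurable (fun u => comb w a u - RR w r * ell u) :=
    (comb_meas H.F).sub (ell_meas.const_mul _)
  obtain ⟨B, hB⟩ := abel_all hfm hfi (H.abel_near hconv)
  have hlog2 : 0 ≤ Real.log 2 := Real.log_nonneg (by norm_num)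
  have hK' : 0 ≤ K + |RR w r| * Real.log 2 := by positivity
  refine bounded_of_slow hfi hB hu0 (L := 3 * (K + |RR w r| * Real.log 2)) (by positivity) ?_ ?_
  · refine slow_of_doubling hK' hu0' fun u v h1 h2 h3 => ?_
    have e1 := h u v h1 h2 h3
    have e2 := (abs_le.1 (ell_abs_double (by linarith) h2 h3 (RR w r))).1
    linarith
  · intro U
    refine ⟨WW w * (Real.exp (2 * U) + Real.exp U) + |RR w r| * ell U, fun u hu huU => ?_⟩
    have e1 := H.comb_loc (w := w) u
    have e2 : Real.exp u ≤ Real.exp U := Real.exp_le_exp.mpr huU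
    have e3 : Real.exp (2 * u) ≤ Real.exp (2 * U) := Real.exp_le_exp.mpr (by linarith)
    have e4 : WW w * (Real.exp (2 * u) + Real.exp u) ≤ WW w * (Real.exp (2 * U) + Real.exp U) :=
      mul_le_mul_of_nonneg_left (by linarith) WW_nonneg
    have e5 : |RR w r * ell u| ≤ |RR w r| * ell U := by
      rw [abs_mul, abs_of_nonneg (show 0 ≤ ell u by linarith [ell_nonneg hu.le])]
      exact mul_le_mul_of_nonneg_left (ell_mono hu.le huU) (abs_nonneg _)
    exact (abs_sub _ _).trans (by linarith)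

/-- **Lower doubling implies the exact order.** -/
theorem Near.order_lower (H : Near a Φ G c0 r c) (hsg : ∀ x : ℝ, 0 < x → mult w Φ x ≤ 0)
    {K u0 : ℝ} (hK : 0 ≤ K) (hu0 : 1 ≤ u0)
    (h : ∀ u v, u0 ≤ u → u ≤ v → v ≤ 2 * u → comb w a u - K ≤ comb w a v) :
    (∀ x > 0, LInt (comb w a) x) ∧ ∃ M : ℝ, ∀ u, 0 < u → |comb w a u - RR w r * ell u| ≤ M := by
  obtain ⟨h1, M, h2⟩ := H.order_upper (w := fun i => -w i) (fun x hx => by
    rw [mult_neg]; linarith [hsg x hx]) hK hu0 (fun u v e1 e2 e3 => by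
    rw [comb_neg, comb_neg]
    linarith [h u v e1 e2 e3])
  refine ⟨fun x hx => ?_, M, fun u hu => ?_⟩
  · have := (h1 x hx).neg
    simp only [comb_neg, neg_neg] at this
    exact this
  · have := h2 u hu
    rw [comb_neg, RR_neg] at this
    rw [← abs_neg]
    refine le_of_eq_of_le ?_ this
    congr 1
    ring

/-- **The weighted order from an upper bound.** -/
theorem Near.order_le (H : Near a Φ G c0 r c) (hconv : ∀ x > 0, LInt (comb w a) x) {κ : ℝ → ℝ}
    {ρ C : ℝ} (hκi : ∀ x > 0, LInt κ x) (hle : ∀ u, 0 < u → comb w a u ≤ κ u)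
    (hκ : ∀ᶠ x : ℝ in 𝓝[>] 0, x * lap κ x + ρ * Real.log x ≤ C) : RR w r ≤ ρ := by
  obtain ⟨C1, hC1⟩ := H.G_bound (w := w)
  set L := ∑ i, w i * Real.log (c i) with hL
  have h1 : ∀ᶠ x : ℝ in 𝓝[>] 0,
      |∑ i, w i * Real.log ‖Φ i x‖ - RR w r * Real.log x| ≤ |L| + 1 := by
    have := (H.log_sum (w := w)).abs.eventually (gt_mem_nhds (show |L| < |L| + 1 by linarith))
    filter_upwards [this] with x hx using hx.le
  have h2 : ∀ᶠ x : ℝ in 𝓝[>] 0, (ρ - RR w r) * Real.log x ≤ C + C1 + (|L| + 1) := by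
    filter_upwards [hC1, h1, hκ, H.lap_near hconv, self_mem_nhdsWithin] with x e1 e2 e3 e4 e5
    have hx : (0 : ℝ) < x := e5
    have e6 := mul_le_mul_of_nonneg_left (lap_mono (hconv x hx) (hκi x hx) hle) hx.le
    rw [e4] at e6
    have e7 := (abs_le.1 e1).1
    have e8 := (abs_le.1 e2).2
    have e9 : (ρ - RR w r) * Real.log x = ρ * Real.log x - RR w r * Real.log x := by ring
    rw [e9]
    linarith
  by_contra hcon
  have ht : 0 < RR w r - ρ := by linarith [not_le.1 hcon]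
  have h3 : Tendsto (fun x : ℝ => (ρ - RR w r) * Real.log x) (𝓝[>] 0) atTop :=
    Real.tendsto_log_nhdsGT_zero.const_mul_atBot_of_neg (by linarith)
  obtain ⟨x, h4, h5⟩ := (h2.and (h3.eventually (eventually_gt_atTop (C + C1 + (|L| + 1))))).exists
  linarith

/-! ### limits -/

/-- corrections of second order -/
structure Cor (G : ι → ℂ → ℂ) (sc : ι → ℝ → ℝ) : Prop where
  meas : ∀ i, Measurable (sc i)
  int : ∀ i, ∀ x > 0, LInt (sc i) x
  bd : ∀ i, ∃ M : ℝ, ∀ u, 0 < u → |sc i u| ≤ M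
  slow : ∀ i, ∀ ε > 0, ∃ δ > 0, ∃ u0 : ℝ, ∀ u v : ℝ, u0 ≤ u → u ≤ v → v ≤ (1 + δ) * u →
    |sc i v - sc i u| ≤ ε
  lim : ∀ i, Tendsto (fun x : ℝ => (G i x).re - x * lap (sc i) x) (𝓝[>] 0) (𝓝 0)

variable {sc : ι → ℝ → ℝ}

theorem lap_sum {ι : Type} (s : Finset ι) {f : ι → ℝ → ℝ} {x : ℝ} (h : ∀ i ∈ s, LInt (f i) x) :
    lap (fun u => ∑ i ∈ s, f i u) x = ∑ i ∈ s, lap (f i) x := by
  unfold LInt at h
  unfold lap
  rw [← integral_finsetSum s h]
  congr 1
  funext u
  rw [Finset.sum_mul]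

theorem comb_sc_meas (C : Cor G sc) : Measurable (comb w sc) := by
  unfold comb
  exact Finset.measurable_sum _ fun i _ => (C.meas i).const_mul _

theorem comb_sc_LInt (C : Cor G sc) {x : ℝ} (hx : 0 < x) : LInt (comb w sc) x :=
  LInt_sum _ fun i _ => (C.int i x hx).const_mul _

theorem comb_sc_lap (C : Cor G sc) {x : ℝ} (hx : 0 < x) :
    lap (comb w sc) x = ∑ i, w i * lap (sc i) x := by
  have h1 : comb w sc = fun u => ∑ i, w i * sc i u := rfl
  rw [h1, lap_sum _ fun i _ => (C.int i x hx).const_mul _]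
  exact Finset.sum_congr rfl fun i _ => lap_const_mul _

theorem comb_sc_bd (C : Cor G sc) : ∃ M : ℝ, ∀ u, 0 < u → |comb w sc u| ≤ M := by
  choose M hM using C.bd
  refine ⟨∑ i, |w i| * M i, fun u hu => ?_⟩
  unfold comb
  refine (Finset.abs_sum_le_sum_abs _ _).trans (Finset.sum_le_sum fun i _ => ?_)
  rw [abs_mul]
  exact mul_le_mul_of_nonneg_left (hM i u hu) (abs_nonneg _)

theorem comb_sc_slow (C : Cor G sc) {ε : ℝ} (hε : 0 < ε) : ∃ δ > 0, ∃ u0 : ℝ, ∀ u v : ℝ,
    u0 ≤ u → u ≤ v → v ≤ (1 + δ) * u → |comb w sc v - comb w sc u| ≤ ε := by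
  have hW := WW_nonneg (w := w)
  choose δ hδ u0 hu using fun i => C.slow i (ε / (WW w + 1)) (by positivity)
  have hne : ∀ s : Finset ι, ∃ d > 0, ∀ i ∈ s, d ≤ δ i := by
    classical
    intro s
    induction s using Finset.induction_on with
    | empty => exact ⟨1, one_pos, by simp⟩
    | insert i s _ ih =>
      obtain ⟨d, hd, h⟩ := ih
      refine ⟨min d (δ i), lt_min hd (hδ i), fun j hj => ?_⟩
      rcases Finset.mem_insert.1 hj with h1 | h1
      · rw [h1]; exact min_le_right _ _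
      · exact (min_le_left _ _).trans (h j h1)
  obtain ⟨d, hd, hd'⟩ := hne Finset.univ
  refine ⟨d, hd, max 0 (∑ i, |u0 i|), fun u v h1 h2 h3 => ?_⟩
  have hu0' : 0 ≤ u := (le_max_left _ _).trans h1
  unfold comb
  rw [← Finset.sum_sub_distrib]
  have h4 : ∀ i ∈ Finset.univ, |w i * sc i v - w i * sc i u| ≤ |w i| * (ε / (WW w + 1)) := by
    intro i _
    rw [← mul_sub, abs_mul]
    refine mul_le_mul_of_nonneg_left (hu i u v ?_ h2 (h3.trans ?_)) (abs_nonneg _)
    · refine (le_abs_self _).trans (le_trans ?_ ((le_max_right _ _).trans h1))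
      exact Finset.single_le_sum (f := fun i => |u0 i|) (fun j _ => abs_nonneg _) (Finset.mem_univ i)
    · exact mul_le_mul_of_nonneg_right (by linarith [hd' i (Finset.mem_univ i)]) hu0'
  refine ((Finset.abs_sum_le_sum_abs _ _).trans (Finset.sum_le_sum h4)).trans ?_
  rw [← Finset.sum_mul]
  have h5 : (∑ i, |w i|) = WW w := rfl
  rw [h5, mul_div_assoc', div_le_iff₀ (by positivity)]
  nlinarith

/-- the normalised combination -/
noncomputable def ff (w : ι → ℝ) (a sc : ι → ℝ → ℝ) (r : ι → ℕ) (u : ℝ) : ℝ :=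
  comb w a u - comb w sc u - RR w r * ell u

/-- the limit -/
noncomputable def KK (w : ι → ℝ) (r : ι → ℕ) (c : ι → ℝ) : ℝ :=
  ∑ i, w i * (-Real.log (c i) + r i * Real.eulerMascheroniConstant)

theorem ff_meas (H : Near a Φ G c0 r c) (C : Cor G sc) : Measurable (ff w a sc r) :=
  ((comb_meas H.F).sub (comb_sc_meas C)).sub (ell_meas.const_mul _)

theorem ff_LInt (C : Cor G sc) (hconv : ∀ x > 0, LInt (comb w a) x) {x : ℝ} (hx : 0 < x) :
    LInt (ff w a sc r) x :=
  ((hconv x hx).sub (comb_sc_LInt C hx)).sub ((ell_LInt hx).const_mul _)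

/-- **The Abel limit.** -/
theorem Near.abel_limit (H : Near a Φ G c0 r c) (C : Cor G sc)
    (hconv : ∀ x > 0, LInt (comb w a) x) :
    Tendsto (fun x : ℝ => x * lap (ff w a sc r) x) (𝓝[>] 0) (𝓝 (KK w r c)) := by
  have h1 : Tendsto (fun x : ℝ => ∑ i, w i * ((G i x).re - x * lap (sc i) x)) (𝓝[>] 0)
      (𝓝 (∑ i, w i * (0 : ℝ))) := tendsto_finsetSum _ fun i _ => (C.lim i).const_mul _
  have h2 := (h1.sub (H.log_sum (w := w))).sub (ell_lap_limit.const_mul (RR w r))
  have h3 : ∑ i, w i * (0 : ℝ) - ∑ i, w i * Real.log (c i) -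
      RR w r * -Real.eulerMascheroniConstant = KK w r c := by
    unfold KK RR
    simp only [mul_zero, Finset.sum_const_zero, zero_sub, mul_neg, sub_neg_eq_add]
    rw [Finset.sum_mul, ← Finset.sum_neg_distrib, ← Finset.sum_add_distrib]
    exact Finset.sum_congr rfl fun i _ => by ring
  rw [h3] at h2
  refine h2.congr' ?_
  filter_upwards [H.lap_near hconv, self_mem_nhdsWithin] with x e1 e2
  have hx : (0 : ℝ) < x := e2
  have e3 : lap (ff w a sc r) x = lap (comb w a) x - lap (comb w sc) x - RR w r * lap ell x := by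
    unfold ff
    rw [lap_sub ((hconv x hx).sub (comb_sc_LInt C hx)) ((ell_LInt hx).const_mul _),
      lap_sub (hconv x hx) (comb_sc_LInt C hx), lap_const_mul]
  rw [e3, comb_sc_lap C hx, mul_sub, mul_sub, e1]
  have e4 : ∑ i, w i * ((G i x).re - x * lap (sc i) x) =
      ∑ i, w i * (G i x).re - x * ∑ i, w i * lap (sc i) x := by
    rw [Finset.mul_sum, ← Finset.sum_sub_distrib]
    exact Finset.sum_congr rfl fun i _ => by ring
  rw [e4]
  ring

/-- **Limits from upper slow variation.** -/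
theorem Near.lead_upper (H : Near a Φ G c0 r c) (C : Cor G sc)
    (hsg : ∀ x : ℝ, 0 < x → 0 ≤ mult w Φ x)
    (h : ∀ ε > 0, ∃ δ > 0, ∃ u0 : ℝ, ∀ u v, u0 ≤ u → u ≤ v → v ≤ (1 + δ) * u →
      comb w a v ≤ comb w a u + ε) :
    Tendsto (ff w a sc r) atTop (𝓝 (KK w r c)) := by
  obtain ⟨K, u0, hK, hu0, hd⟩ := doubling_of_slow h
  obtain ⟨hconv, M, hM⟩ := H.order_upper hsg hK hu0 hd
  obtain ⟨M', hM'⟩ := comb_sc_bd (w := w) C
  refine tauber_limit (ff_meas H C) (fun x hx => ff_LInt C hconv hx) (M := M + M') (fun u hu => ?_)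
    (H.abel_limit C hconv) ?_
  · have h1 := hM u hu
    have h2 := hM' u hu
    have h3 : ff w a sc r u = (comb w a u - RR w r * ell u) - comb w sc u := by unfold ff; ring
    rw [h3]
    exact (abs_sub _ _).trans (add_le_add h1 h2)
  · intro ε hε
    obtain ⟨δ1, hδ1, u1, h1⟩ := h (ε / 3) (by positivity)
    obtain ⟨δ2, hδ2, u2, h2⟩ := comb_sc_slow (w := w) C (show 0 < ε / 3 by positivity)
    have hδ3 : 0 < ε / (3 * (|RR w r| + 1)) := by positivity
    refine ⟨min (min δ1 δ2) (ε / (3 * (|RR w r| + 1))), lt_min (lt_min hδ1 hδ2) hδ3,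
      max 1 (max u1 u2), fun u v h3 h4 h5 => ?_⟩
    have hu1 : 1 ≤ u := (le_max_left _ _).trans h3
    have hu0 : 0 < u := by linarith
    have m1 : min (min δ1 δ2) (ε / (3 * (|RR w r| + 1))) ≤ δ1 :=
      (min_le_left _ _).trans (min_le_left _ _)
    have m2 : min (min δ1 δ2) (ε / (3 * (|RR w r| + 1))) ≤ δ2 :=
      (min_le_left _ _).trans (min_le_right _ _)
    have m3 : min (min δ1 δ2) (ε / (3 * (|RR w r| + 1))) ≤ ε / (3 * (|RR w r| + 1)) :=
      min_le_right _ _
    have e1 := h1 u v (((le_max_left _ _).trans (le_max_right _ _)).trans h3) h4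
      (h5.trans (mul_le_mul_of_nonneg_right (by linarith) hu0.le))
    have e2 := h2 u v (((le_max_right _ _).trans (le_max_right _ _)).trans h3) h4
      (h5.trans (mul_le_mul_of_nonneg_right (by linarith) hu0.le))
    have e3 := (abs_le.mp e2).1
    have e4 := ell_slow hδ3 hu0 h4
      (h5.trans (mul_le_mul_of_nonneg_right (by linarith) hu0.le))
    have e5 := ell_mono hu0.le h4
    have e6 : |RR w r * ell v - RR w r * ell u| ≤ ε / 3 := by
      rw [← mul_sub, abs_mul, abs_of_nonneg (show 0 ≤ ell v - ell u by linarith)]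
      calc |RR w r| * (ell v - ell u) ≤ |RR w r| * (ε / (3 * (|RR w r| + 1))) :=
            mul_le_mul_of_nonneg_left (by linarith) (abs_nonneg _)
        _ ≤ ε / 3 := by
          rw [mul_div_assoc', div_le_div_iff₀ (by positivity) (by positivity)]
          nlinarith [abs_nonneg (RR w r)]
    have e7 := (abs_le.1 e6).1
    unfold ff
    linarith

theorem ff_neg (u : ℝ) : ff (fun i => -w i) a sc r u = -ff w a sc r u := by
  unfold ff
  rw [comb_neg, comb_neg, RR_neg]
  ring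

theorem KK_neg : KK (fun i => -w i) r c = -KK w r c := by
  unfold KK
  rw [← Finset.sum_neg_distrib]
  exact Finset.sum_congr rfl fun i _ => by ring

/-- **Limits from lower slow variation.** -/
theorem Near.lead_lower (H : Near a Φ G c0 r c) (C : Cor G sc)
    (hsg : ∀ x : ℝ, 0 < x → mult w Φ x ≤ 0)
    (h : ∀ ε > 0, ∃ δ > 0, ∃ u0 : ℝ, ∀ u v, u0 ≤ u → u ≤ v → v ≤ (1 + δ) * u →
      comb w a u - ε ≤ comb w a v) :
    Tendsto (ff w a sc r) atTop (𝓝 (KK w r c)) := by
  have h1 := H.lead_upper (w := fun i => -w i) C (fun x hx => by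
    rw [mult_neg]; linarith [hsg x hx]) (fun ε hε => by
      obtain ⟨δ, hδ, u0, h2⟩ := h ε hε
      refine ⟨δ, hδ, u0, fun u v e1 e2 e3 => ?_⟩
      rw [comb_neg, comb_neg]
      linarith [h2 u v e1 e2 e3])
  rw [KK_neg] at h1
  have h2 := h1.neg
  rw [neg_neg] at h2
  refine h2.congr fun u => ?_
  rw [ff_neg, neg_neg]

end Pool.Agent.H21.RC
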